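import Pool.Agent.Zk27.UE.PUnif

/-!
# Euler on `𝕋³`: arbitrary dynamics is shadowed by linear families of exact solutions

Let `s > 1`, `ε > 0`. For every family `v_y(t)`, `y ∈ Y`, `t ∈ I`, of curves of divergence-free
fields on the flat torus, with bounded energy and with mean values independent of `t`, whose Fourier
coefficients are continuous on `Y × I`, `Y` and `I ⊆ ℝ` compact (for instance
`v_y(t) = J(φ_t y)`, `t ∈ [0, T]`, where `φ` is any semiflow on `Y`), there is a finite-dimensional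
affine space `𝓐` of smooth fields which is invariant under the Euler flow `Φ_t` and on which `Φ_t` is
a group of rotations, and a continuous map `Θ : Y → 𝓐` with `‖Φ_t Θ(y) - v_y(t)‖ ≤ ε` in `H^{-s}` for
all `y ∈ Y`, `t ∈ I`. The same holds on non-compact sets of times, for instance for all `t ∈ ℝ`, if
the Fourier coefficients of `v` are uniformly almost periodic in `t`. Low modes which are
trigonometric polynomials in `t` are reproduced exactly. The approximation persists under
perturbations of the initial velocity which are small in `L²`.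
-/

open MeasureTheory Set
open scoped ContDiff Topology

set_option autoImplicit false

namespace Pool.Agent.Results.MP_b0497c_an.AffineFamilies

open Pool.Agent.H708R2.EulerSign Pool.Agent.H708R2.EulerModes
open Pool.Agent.Zk27.UE

/-- `(u, p)` is a smooth solution of the Euler equations on `𝕋³` for all times `t ∈ ℝ`, the pressure
`p` does not depend on time, and every classical solution (on an interval `[0, T')`) which agrees
with `u` at one time agrees with `u` at all times. -/
def IsGlobalSolution (u : ℝ → V → V) (p : V → ℝ) : Prop :=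
  ContDiff ℝ ∞ (fun z : ℝ × V => u z.1 z.2) ∧ ContDiff ℝ ∞ p ∧
    IsClassicalSolution univ u (fun _ => p) ∧
    ∀ (T' : ℝ) (w : ℝ → V → V) (q : ℝ → V → ℝ), IsClassicalSolution (Ico 0 T') w q →
      ∀ t₀ ∈ Ico 0 T', w t₀ = u t₀ → ∀ t ∈ Ico 0 T', w t = u t

/-- The field `w₀ + ∑_j ((a_j cos(ν_j t) + b_j sin(ν_j t)) w_j + (b_j cos(ν_j t) - a_j sin(ν_j t)) w'_j)`
at the time `t`: the coordinates `(a_j, b_j)` rotate with the angular velocities `ν_j`. -/
noncomputable def flow {n : ℕ} (ν : Fin n → ℝ) (w₀ : V → V) (w w' : Fin n → V → V)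
    (a b : Fin n → ℝ) (t : ℝ) (x : V) : V :=
  w₀ x + ∑ j, ((a j * Real.cos (ν j * t) + b j * Real.sin (ν j * t)) • w j x
    + (b j * Real.cos (ν j * t) - a j * Real.sin (ν j * t)) • w' j x)

/-- The affine space `w₀ + span(w_j, w'_j)` is invariant under the Euler flow, and the Euler flow
rotates the coordinates: for all `a`, `b` the curve `flow ν w₀ w w' a b` is a smooth global solution
with the pressure `p`. -/
def IsEulerFamily {n : ℕ} (ν : Fin n → ℝ) (w₀ : V → V) (w w' : Fin n → V → V) (p : V → ℝ) : Prop :=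
  ∀ a b : Fin n → ℝ, IsGlobalSolution (flow ν w₀ w w' a b) p

/-- `v_y(t)`, `t ∈ I`, are periodic, square-integrable, (weakly) divergence-free fields with
`∫ |v_y(t)|² ≤ E` whose integral `∫ v_y(t)` does not depend on `t`. -/
structure IsFamily {Y : Type} (I : Set ℝ) (E : ℝ) (v : Y → ℝ → V → V) : Prop where
  periodic : ∀ y, ∀ t ∈ I, Periodic3 (v y t)
  memLp : ∀ y, ∀ t ∈ I, MemLp (v y t) 2 (volume.restrict cube)
  divFree : ∀ y, ∀ t ∈ I, WeakDivFree (v y t)
  energy : ∀ y, ∀ t ∈ I, ∑ i, ∫ x in cube, v y t x i ^ 2 ≤ E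
  mean : ∀ y, ∀ t ∈ I, ∀ t' ∈ I, ∀ i, ∫ x in cube, v y t x i = ∫ x in cube, v y t' x i

/-- All Fourier coefficients of `v_y(t)` are continuous functions of `(y, t) ∈ Y × I`. -/
def IsContinuousFamily {Y : Type} [TopologicalSpace Y] (I : Set ℝ) (v : Y → ℝ → V → V) : Prop :=
  ∀ l i, ContinuousOn (fun z : Y × ℝ => cosCoeff l (fun x => v z.1 z.2 x i)) (univ ×ˢ I) ∧
    ContinuousOn (fun z : Y × ℝ => sinCoeff l (fun x => v z.1 z.2 x i)) (univ ×ˢ I)

/-- Each function `f y` is on `I` a uniform limit of trigonometric polynomials (with real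
frequencies), and it depends continuously on `y`, uniformly on `I`. -/
def IsUniformlyAP {Y : Type} [TopologicalSpace Y] (I : Set ℝ) (f : Y → ℝ → ℝ) : Prop :=
  (∀ y η, 0 < η → ∃ (n : ℕ) (μ a b : Fin n → ℝ),
    ∀ t ∈ I, |f y t - ∑ j, (a j * Real.cos (μ j * t) + b j * Real.sin (μ j * t))| ≤ η) ∧
  ∀ y₀ η, 0 < η → ∀ᶠ y in 𝓝 y₀, ∀ t ∈ I, |f y t - f y₀ t| ≤ η

/-- All Fourier coefficients of `v_y(t)` are uniformly almost periodic. -/
def IsAPFamily {Y : Type} [TopologicalSpace Y] (I : Set ℝ) (v : Y → ℝ → V → V) : Prop :=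
  ∀ l i, IsUniformlyAP I (fun y t => cosCoeff l (fun x => v y t x i)) ∧
    IsUniformlyAP I (fun y t => sinCoeff l (fun x => v y t x i))

/-- `f y` is on `I` a trigonometric polynomial with the frequencies `μ_j` and with coefficients
which are continuous in `y`. -/
def IsTrigPoly {Y : Type} [TopologicalSpace Y] {m : ℕ} (μ : Fin m → ℝ) (I : Set ℝ)
    (f : Y → ℝ → ℝ) : Prop :=
  ∃ a b : Y → Fin m → ℝ, Continuous a ∧ Continuous b ∧
    ∀ y, ∀ t ∈ I, f y t = ∑ j, (a y j * Real.cos (μ j * t) + b y j * Real.sin (μ j * t))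

/-- The Fourier coefficients of `v_y(t)` at the frequencies `l` with `|l_i| ≤ K` are trigonometric
polynomials in `t ∈ I`. -/
def HasTrigModes {Y : Type} [TopologicalSpace Y] (K : ℕ) (I : Set ℝ) (v : Y → ℝ → V → V) : Prop :=
  ∃ (m : ℕ) (μ : Fin m → ℝ), ∀ l : Fin 3 → ℤ, (∀ i, |l i| ≤ K) → ∀ i,
    IsTrigPoly μ I (fun y t => cosCoeff l (fun x => v y t x i)) ∧
      IsTrigPoly μ I (fun y t => sinCoeff l (fun x => v y t x i))

lemma global_of_sol {u : ℝ → V → V} {p : V → ℝ} (h : Sol u p) : IsGlobalSolution u p :=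
  ⟨h.smooth, h.psmooth, h.classical, fun _ _ _ hw _ ht₀ h0 => h.unique hw ht₀ h0⟩

lemma flow_fam {ι : Type} [Fintype ι] {n : ℕ} (e : ι ≃ Fin n) (ν : ι → ℝ) (S : V → V)
    (W W' : ι → V → V) (a b : Fin n → ℝ) :
    flow (fun j => ν (e.symm j)) S (fun j => W (e.symm j)) (fun j => W' (e.symm j)) a b
      = fam ν S W W' (fun i => a (e i)) (fun i => b (e i)) := by
  ext1 t; ext1 x
  unfold flow fam
  congr 1
  rw [← Equiv.sum_comp e]
  simp only [Equiv.symm_apply_apply]
  rfl

lemma flow_fam' {ι : Type} [Fintype ι] {n : ℕ} (e : ι ≃ Fin n) (ν : ι → ℝ) (S : V → V)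
    (W W' : ι → V → V) (a b : ι → ℝ) :
    flow (fun j => ν (e.symm j)) S (fun j => W (e.symm j)) (fun j => W' (e.symm j))
      (fun j => a (e.symm j)) (fun j => b (e.symm j)) = fam ν S W W' a b := by
  rw [flow_fam]
  simp only [Equiv.symm_apply_apply]

lemma family_of_sol {ι : Type} [Fintype ι] {n : ℕ} (e : ι ≃ Fin n) {ν : ι → ℝ} {S : V → V}
    {W W' : ι → V → V} {P : V → ℝ} (h : ∀ a b, Sol (fam ν S W W' a b) P) :
    IsEulerFamily (fun j => ν (e.symm j)) S (fun j => W (e.symm j)) (fun j => W' (e.symm j)) P := by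
  intro a b
  rw [flow_fam]
  exact global_of_sol (h _ _)

lemma energy_dom {h : V → V} (hp : Periodic3 h) :
    ∑ i, ∫ x in Dom, h x i ^ 2 = ∑ i, ∫ x in cube, h x i ^ 2 := by
  refine Finset.sum_congr rfl fun i _ => ?_
  refine (integral_cube (f := fun x => h x i ^ 2) ?_).symm
  intro j x; simp only; rw [hp j x]

lemma cA_zero_apply {h : V → V} (hp : Periodic3 h) (i : Fin 3) :
    cA h 0 i = ∫ x in cube, h x i := by
  rw [integral_cube (comp_periodic hp i)]
  unfold cA
  simp only [ph_zero, Real.cos_zero, mul_one]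

lemma cA_cos {h : V → V} (hp : Periodic3 h) (l : Fin 3 → ℤ) (i : Fin 3) :
    cA h l i = cosCoeff l (fun x => h x i) := (cosCoeff_eq (comp_periodic hp i) l).symm

lemma cB_sin {h : V → V} (hp : Periodic3 h) (l : Fin 3 → ℤ) (i : Fin 3) :
    cB h l i = sinCoeff l (fun x => h x i) := (sinCoeff_eq (comp_periodic hp i) l).symm

lemma TA.congr {Pμ : ℝ → Prop} {I : Set ℝ} {g g' : ℝ → ℝ} (h : TA Pμ I g)
    (e : ∀ t ∈ I, g t = g' t) : TA Pμ I g' := by
  intro η hη
  obtain ⟨n, μ, a, b, h1, h2⟩ := h η hη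
  refine ⟨n, μ, a, b, h1, fun t ht => ?_⟩
  rw [← e t ht]; exact h2 t ht

lemma UC.congr {Y : Type} [TopologicalSpace Y] {I : Set ℝ} {g g' : Y → ℝ → ℝ} (h : UC I g)
    (e : ∀ y, ∀ t ∈ I, g y t = g' y t) : UC I g' := by
  intro y₀ η hη
  filter_upwards [h y₀ η hη] with y hy t ht
  rw [← e y t ht, ← e y₀ t ht]; exact hy t ht

lemma pfam_of {Y : Type} [TopologicalSpace Y] {Pμ : ℝ → Prop} {I : Set ℝ} {E : ℝ}
    {v : Y → ℝ → V → V} (h : IsFamily I E v)
    (h1 : ∀ y l i, TA Pμ I (fun t => cosCoeff l (fun x => v y t x i)))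
    (h2 : ∀ y l i, TA Pμ I (fun t => sinCoeff l (fun x => v y t x i)))
    (h3 : ∀ l i, UC I (fun y t => cosCoeff l (fun x => v y t x i)))
    (h4 : ∀ l i, UC I (fun y t => sinCoeff l (fun x => v y t x i))) : PFamily Pμ I E v := by
  refine ⟨h.periodic, h.memLp, h.divFree, ?_, ?_, ?_, ?_, ?_, ?_⟩
  · intro y t ht
    rw [energy_dom (h.periodic y t ht)]
    exact h.energy y t ht
  · intro y t ht t' ht'
    ext i
    rw [cA_zero_apply (h.periodic y t ht), cA_zero_apply (h.periodic y t' ht')]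
    exact h.mean y t ht t' ht' i
  · intro y l i
    exact TA.congr (h1 y l i) fun t ht => (cA_cos (h.periodic y t ht) l i).symm
  · intro y l i
    exact TA.congr (h2 y l i) fun t ht => (cB_sin (h.periodic y t ht) l i).symm
  · intro l i
    exact UC.congr (h3 l i) fun y t ht => (cA_cos (h.periodic y t ht) l i).symm
  · intro l i
    exact UC.congr (h4 l i) fun y t ht => (cB_sin (h.periodic y t ht) l i).symm

lemma pfam_of_family {Y : Type} [TopologicalSpace Y] {I : Set ℝ} {E : ℝ} {v : Y → ℝ → V → V}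
    (hv : IsFamily I E v) (hc : (IsCompact I ∧ IsContinuousFamily I v) ∨ IsAPFamily I v) :
    PFamily (fun _ => True) I E v := by
  rcases hc with ⟨hI, hc⟩ | hc
  · refine pfam_of hv ?_ ?_ ?_ ?_
    · intro y l i
      refine TA.of_compact hI ?_
      exact (hc l i).1.comp (f := fun t : ℝ => (y, t)) (by fun_prop) fun t ht => ⟨mem_univ _, ht⟩
    · intro y l i
      refine TA.of_compact hI ?_
      exact (hc l i).2.comp (f := fun t : ℝ => (y, t)) (by fun_prop) fun t ht => ⟨mem_univ _, ht⟩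
    · exact fun l i => UC.of_compact hI (hc l i).1
    · exact fun l i => UC.of_compact hI (hc l i).2
  · refine pfam_of hv ?_ ?_ ?_ ?_
    · intro y l i η hη
      obtain ⟨n, μ, a, b, h⟩ := (hc l i).1.1 y η hη
      exact ⟨n, μ, a, b, fun _ => trivial, h⟩
    · intro y l i η hη
      obtain ⟨n, μ, a, b, h⟩ := (hc l i).2.1 y η hη
      exact ⟨n, μ, a, b, fun _ => trivial, h⟩
    · exact fun l i => (hc l i).1.2
    · exact fun l i => (hc l i).2.2

lemma TrigF.congr {Y : Type} [TopologicalSpace Y] {m : ℕ} {μ : Fin m → ℝ} {I : Set ℝ}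
    {f g : Y → ℝ → ℝ} (h : TrigF μ I f) (e : ∀ y, ∀ t ∈ I, f y t = g y t) : TrigF μ I g := by
  obtain ⟨a, b, ha, hb, h⟩ := h
  refine ⟨a, b, ha, hb, fun y t ht => ?_⟩
  rw [← e y t ht]; exact h y t ht

lemma HNegClose.mono {s ε ε' : ℝ} {v u : V → V} (h : HNegClose s ε v u) (h0 : 0 ≤ ε)
    (hε : ε ≤ ε') : HNegClose s ε' v u := fun S =>
  (h S).trans (pow_le_pow_left₀ h0 hε 2)

/-- Let `s > 1`, `ε > 0`, let `Y` be a compact Hausdorff space, and let `v_y(t)`, `y ∈ Y`, `t ∈ I`,
be divergence-free fields with bounded energy and with mean values independent of `t`. Suppose that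
`I ⊆ ℝ` is compact and that the Fourier coefficients are continuous on `Y × I` (for instance
`I = [0, T]`, `v_y(t) = J(φ_t y)` with a semiflow `φ` on `Y`), or that `I` is any set of times (for
instance `ℝ`) and the Fourier coefficients are almost periodic on `I`, uniformly in `y`. Then there
are an affine space of smooth fields, invariant under the Euler flow, on which the Euler flow is a
group of rotations of the coordinates, and points `Θ(y)` of this space, with coordinates `a(y)`,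
`b(y)` which are continuous in `y`, such that for the solution with the initial velocity `Θ(y)`:

* it is within `ε` of `v_y(t)` in `H^{-s}` for all `t ∈ I` and `y ∈ Y`;

* if the Fourier coefficients of `v_y(t)` at the frequencies `|l_i| ≤ K` are trigonometric
polynomials in `t`, then they are equal to those of the solution, for all `t ∈ I` and `y ∈ Y`;

* for each `T` there is `δ > 0` such that for each `y` every classical solution `z` on `[0, T')`,
`T' ≤ T`, with `∫ |z(0) - Θ(y)|² ≤ δ` is within `ε` of `v_y(t)` in `H^{-s}`, `t ∈ I ∩ [0, T')`. -/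
theorem result (s ε : ℝ) (hs : 1 < s) (hε : 0 < ε) (K : ℕ) (Y : Type) [TopologicalSpace Y]
    [CompactSpace Y] [T2Space Y] (I : Set ℝ) (E : ℝ) (v : Y → ℝ → V → V) (hv : IsFamily I E v)
    (hc : (IsCompact I ∧ IsContinuousFamily I v) ∨ IsAPFamily I v) :
    ∃ (n : ℕ) (ν : Fin n → ℝ) (w₀ : V → V) (w w' : Fin n → V → V) (p : V → ℝ)
      (a b : Y → Fin n → ℝ), IsEulerFamily ν w₀ w w' p ∧ Continuous a ∧ Continuous b ∧
      (∀ y, ∀ t ∈ I, HNegClose s ε (flow ν w₀ w w' (a y) (b y) t) (v y t)) ∧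
      (HasTrigModes K I v →
        ∀ y, ∀ t ∈ I, SameModes K (flow ν w₀ w w' (a y) (b y) t) (v y t)) ∧
      ∀ T : ℝ, ∃ δ : ℝ, 0 < δ ∧ ∀ (y : Y) (T' : ℝ) (z : ℝ → V → V) (q : ℝ → V → ℝ), T' ≤ T →
        IsClassicalSolution (Ico 0 T') z q →
        ∑ i, ∫ x in cube, (z 0 x i - flow ν w₀ w w' (a y) (b y) 0 x i) ^ 2 ≤ δ →
        ∀ t ∈ Ico 0 T' ∩ I, HNegClose s ε (z t) (v y t) := by
  classical
  have hpf := pfam_of_family hv hc
  obtain ⟨m, μ, hμ⟩ : ∃ (m : ℕ) (μ : Fin m → ℝ), HasTrigModes K I v →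
      ∀ l ∈ Bx K, ∀ i, TrigF μ I (fun y t => cA (v y t) l i) ∧
        TrigF μ I (fun y t => cB (v y t) l i) := by
    by_cases h : HasTrigModes K I v
    · obtain ⟨m, μ, h'⟩ := h
      refine ⟨m, μ, fun _ l hl i => ?_⟩
      obtain ⟨h1, h2⟩ := h' l (mem_Bx.1 hl) i
      exact ⟨TrigF.congr h1 fun y t ht => (cA_cos (hv.periodic y t ht) l i).symm,
        TrigF.congr h2 fun y t ht => (cB_sin (hv.periodic y t ht) l i).symm⟩
    · exact ⟨0, fun _ => 0, fun h' => absurd h' h⟩
  obtain ⟨ι, _, ν, S, W, W', P, hsol, a, b, ha, hb, hcl, hex⟩ :=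
    pfamily2 (μ := μ) hpf K hs (half_pos hε) (HasTrigModes K I v) hμ
  obtain ⟨R₁, hR₁⟩ := isCompact_univ.exists_bound_of_continuousOn ha.continuousOn
  obtain ⟨R₂, hR₂⟩ := isCompact_univ.exists_bound_of_continuousOn hb.continuousOn
  have hab : ∀ y e, |a y e| ≤ max R₁ R₂ ∧ |b y e| ≤ max R₁ R₂ := by
    intro y e
    have h1 := (norm_le_pi_norm (a y) e).trans (hR₁ y (mem_univ y))
    have h2 := (norm_le_pi_norm (b y) e).trans (hR₂ y (mem_univ y))
    rw [Real.norm_eq_abs] at h1 h2
    exact ⟨h1.trans (le_max_left _ _), h2.trans (le_max_right _ _)⟩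
  let e : ι ≃ Fin (Fintype.card ι) := Fintype.equivFin ι
  have hflow : ∀ y, flow (fun j => ν (e.symm j)) S (fun j => W (e.symm j))
      (fun j => W' (e.symm j)) (fun j => a y (e.symm j)) (fun j => b y (e.symm j))
      = fam ν S W W' (a y) (b y) := fun y => flow_fam' e ν S W W' (a y) (b y)
  refine ⟨_, fun j => ν (e.symm j), S, fun j => W (e.symm j), fun j => W' (e.symm j), P,
    fun y j => a y (e.symm j), fun y j => b y (e.symm j), family_of_sol e hsol,
    continuous_pi fun j => (continuous_apply _).comp ha,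
    continuous_pi fun j => (continuous_apply _).comp hb, ?_, ?_, ?_⟩
  · intro y t ht
    rw [hflow]
    exact HNegClose.mono (hcl y t ht) (by positivity) (by linarith)
  · intro h y t ht
    rw [hflow]
    exact hex h y t ht
  · intro T
    obtain ⟨δ, hδ, hrob⟩ := probust hsol (by linarith : 0 ≤ s) hε (max R₁ R₂) T
    refine ⟨δ, hδ, ?_⟩
    rintro y T' z q hTT hz h0 t ⟨ht, htI⟩
    rw [hflow] at h0
    have h0T : (0 : ℝ) ∈ Ico 0 T' := ⟨le_rfl, ht.1.trans_lt ht.2⟩
    refine hrob (a y) (b y) (hab y) T' z q hTT hz ?_ t ht (v y t) (hv.memLp y t htI)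
      (hcl y t htI)
    refine le_trans (le_of_eq ?_) h0
    refine Finset.sum_congr rfl fun i _ => ?_
    refine (integral_cube (f := fun x => (z 0 x i - fam ν S W W' (a y) (b y) 0 x i) ^ 2) ?_).symm
    intro j x
    simp only
    rw [hz.periodic_u 0 h0T j x, (hsol (a y) (b y)).per 0 j x]

end Pool.Agent.Results.MP_b0497c_an.AffineFamilies
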