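import Pool.Agent.Zk27.MB3.Fin
import Pool.Agent.Zk27.MB.E
import Pool.Agent.Zk50.MB4.OG
import Pool.Agent.H708R2.EulerModes.Main

/-!
# Blow-up for equations arbitrarily close to the Euler equations on `𝕋³`

The vorticity is transported by `u + ε T u` instead of `u`.
-/

open MeasureTheory Set
open scoped ContDiff

namespace Pool.Agent.Results.MP_b0497c_an.InertiaBlowup

/-- The space `ℝ³`. -/
abbrev V := Fin 3 → ℝ

/-- `f` is `2π`-periodic in each of the three coordinates. -/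
def Periodic3 {F : Type} (f : V → F) : Prop :=
  ∀ (i : Fin 3) (x : V), f (x + Pi.single i (2 * Real.pi)) = f x

/-- The partial derivative `∂ⱼ vᵢ (x)` of the vector field `v`. -/
noncomputable def D (v : V → V) (x : V) (j i : Fin 3) : ℝ := fderiv ℝ v x (Pi.single j 1) i

/-- The divergence `div v`. -/
noncomputable def div (v : V → V) (x : V) : ℝ := ∑ i, D v x i i

/-- The vorticity `curl v`. -/
noncomputable def curl (v : V → V) (x : V) : V :=
  ![D v x 1 2 - D v x 2 1, D v x 2 0 - D v x 0 2, D v x 0 1 - D v x 1 0]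

/-- The vector product `a × b`. -/
def cross (a b : V) : V := ![a 1 * b 2 - a 2 * b 1, a 2 * b 0 - a 0 * b 2, a 0 * b 1 - a 1 * b 0]

/-- The torus `𝕋³ = [-π, π]³`. -/
def torus : Set V := Icc (fun _ => -Real.pi) (fun _ => Real.pi)

/-- The scalar product `∫ u · v` over the torus. -/
noncomputable def prod (u v : V → V) : ℝ := ∫ x in torus, ∑ i, u x i * v x i

/-- `(u, q)` is a classical solution, for the times in `I`, of
`∂ₜ u + (curl u) × (u + T u) + ∇ q = 0`, `div u = 0` on `𝕋³`: `u`, `q` are continuously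
differentiable in `(t, x)` and `2π`-periodic in `x`. -/
structure IsSolution (T : (V → V) → V → V) (I : Set ℝ) (u : ℝ → V → V) (q : ℝ → V → ℝ) : Prop where
  contDiffOn_u : ContDiffOn ℝ 1 (fun z : ℝ × V => u z.1 z.2) (I ×ˢ univ)
  contDiffOn_q : ContDiffOn ℝ 1 (fun z : ℝ × V => q z.1 z.2) (I ×ˢ univ)
  periodic_u : ∀ t ∈ I, Periodic3 (u t)
  periodic_q : ∀ t ∈ I, Periodic3 (q t)
  div_free : ∀ t ∈ I, ∀ x, div (u t) x = 0
  momentum : ∀ t ∈ I, ∀ x i, derivWithin (fun s => u s x i) I t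
    + cross (curl (u t) x) (u t x + T (u t) x) i + fderiv ℝ (q t) x (Pi.single i 1) = 0

/-- `(u, p)` is a classical solution of the Euler equations `∂ₜ u + u · ∇ u + ∇ p = 0`,
`div u = 0` on `𝕋³` for the times in `I`. -/
structure IsEuler (I : Set ℝ) (u : ℝ → V → V) (p : ℝ → V → ℝ) : Prop where
  contDiffOn_u : ContDiffOn ℝ 1 (fun z : ℝ × V => u z.1 z.2) (I ×ˢ univ)
  contDiffOn_p : ContDiffOn ℝ 1 (fun z : ℝ × V => p z.1 z.2) (I ×ˢ univ)
  periodic_u : ∀ t ∈ I, Periodic3 (u t)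
  periodic_p : ∀ t ∈ I, Periodic3 (p t)
  div_free : ∀ t ∈ I, ∀ x, div (u t) x = 0
  momentum : ∀ t ∈ I, ∀ x i, derivWithin (fun s => u s x i) I t
    + ∑ j, u t x j * D (u t) x j i + fderiv ℝ (p t) x (Pi.single i 1) = 0

/-- A modulus of continuity `m`: positive and nondecreasing, with `m(r)/r` nonincreasing. It
satisfies Osgood's condition if `∫₀¹ dr / m(r) = ∞`. -/
structure Modulus (m : ℝ → ℝ) : Prop where
  pos : ∀ r, 0 < r → 0 < m r
  mono : ∀ r s, 0 < r → r ≤ s → m r ≤ m s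
  anti : ∀ r s, 0 < r → r ≤ s → m s / s ≤ m r / r

/-- `T` is a linear operator on the continuous periodic fields, symmetric for `∫ u · v` and bounded
for the norm of `L²`; for every `k` it maps `C^k` to `C^k` boundedly, and the derivatives of order
`k` of `T u` have the modulus of continuity `C B m` if those of `u` up to order `k` exist, are
continuous and bounded by `B`; `div (T u) = 0`. -/
structure IsOperator (m : ℝ → ℝ) (T : (V → V) → V → V) : Prop where
  periodic : ∀ u, Continuous u → Periodic3 u → Periodic3 (T u)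
  add : ∀ u w, Continuous u → Periodic3 u → Continuous w → Periodic3 w →
    T (fun x => u x + w x) = fun x => T u x + T w x
  smul : ∀ (a : ℝ) u, Continuous u → Periodic3 u → T (fun x => a • u x) = fun x => a • T u x
  symmetric : ∀ u w, Continuous u → Periodic3 u → Continuous w → Periodic3 w →
    prod (T u) w = prod u (T w)
  div_free : ∀ u, ContDiff ℝ 1 u → Periodic3 u → ∀ x, div (T u) x = 0
  bounded : ∃ C > 0, ∀ u, Continuous u → Periodic3 u → prod (T u) (T u) ≤ C ^ 2 * prod u u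
  regular : ∀ k : ℕ, ∃ C > 0, ∀ u (B : ℝ), ContDiff ℝ k u → Periodic3 u →
    (∀ j ≤ k, ∀ x, ‖iteratedFDeriv ℝ j u x‖ ≤ B) →
    ContDiff ℝ k (T u) ∧ (∀ x, ‖iteratedFDeriv ℝ k (T u) x‖ ≤ C * B) ∧
    ∀ x y, x ≠ y →
      ‖iteratedFDeriv ℝ k (T u) x - iteratedFDeriv ℝ k (T u) y‖ ≤ C * B * m ‖x - y‖

/-- The tube of radius `ρ` around the closed line `x₁ = x₂ = 0` of `𝕋³`, as a periodic set. -/
def Tube (ρ : ℝ) : Set V :=
  {x | ∃ k l : ℤ, |x 0 - 2 * Real.pi * k| < ρ ∧ |x 1 - 2 * Real.pi * l| < ρ}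

/-- `u₀` is the parallel field `(0, 0, w(x₁, x₂))` with a profile `w`, smooth, `|w| ≤ 1`, compactly
supported in `(0, 1) × (-1, 1)`, and at least `1/2` on the rectangle `[a, 1/2] × [-1/2, 1/2]`. -/
def IsDatum (a : ℝ) (u₀ : V → V) : Prop :=
  Periodic3 u₀ ∧ ∃ w : ℝ × ℝ → ℝ, ContDiff ℝ ∞ w ∧ (∀ z, |w z| ≤ 1) ∧
    tsupport w ⊆ Ioo 0 1 ×ˢ Ioo (-1) 1 ∧
    (∀ z : ℝ × ℝ, a ≤ z.1 → z.1 ≤ 1 / 2 → |z.2| ≤ 1 / 2 → 1 / 2 ≤ w z) ∧
    ∀ x ∈ torus, u₀ x = ![0, 0, w (x 0, x 1)]

open Pool.Agent.H708R2.EulerSign (Dom sq3 divergence grad IsClassicalSolution)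
open Pool.Agent.Zk27

lemma div_eq (v : V → V) (x : V) : div v x = divergence v x := rfl

lemma prod_eq {u v : V → V} (hu : Periodic3 u) (hv : Periodic3 v) : prod u v = MB.ip u v := by
  unfold prod MB.ip
  refine Pool.Agent.H708R2.EulerModes.integral_cube (f := fun x => ∑ i, u x i * v x i) ?_
  intro i x
  simp only
  rw [hu i x, hv i x]

lemma prod_self {u : V → V} (hu : Periodic3 u) : prod u u = ∫ x in Dom, sq3 (u x) := by
  rw [prod_eq hu hu]
  unfold MB.ip sq3
  congr 1
  funext x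
  exact Finset.sum_congr rfl fun i _ => by ring

lemma cross_curl (v : V → V) (x U : V) (i : Fin 3) :
    cross (curl v x) U i = ∑ j, U j * (D v x j i - D v x i j) := by
  rw [Fin.sum_univ_three]
  fin_cases i
  · simp [cross, curl]; ring
  · simp [cross, curl]; ring
  · simp [cross, curl]; ring

lemma sol_iff (T : (V → V) → V → V) (I : Set ℝ) (u : ℝ → V → V) (q : ℝ → V → ℝ) :
    IsSolution T I u q ↔ MB.IsModSol T I u q := by
  constructor
  · intro h
    refine ⟨h.1, h.2, h.3, h.4, h.5, fun t ht x i => ?_⟩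
    have := h.6 t ht x i
    rw [cross_curl] at this
    exact this
  · intro h
    refine ⟨h.1, h.2, h.3, h.4, h.5, fun t ht x i => ?_⟩
    rw [cross_curl]
    exact h.6 t ht x i

lemma euler_iff (I : Set ℝ) (u : ℝ → V → V) (p : ℝ → V → ℝ) :
    IsEuler I u p ↔ IsClassicalSolution I u p := by
  constructor
  · intro h
    exact ⟨h.1, h.2, h.3, h.4, h.5, fun t ht x i => by
      have := h.6 t ht x i
      unfold D at this
      linarith⟩
  · intro h
    exact ⟨h.1, h.2, h.3, h.4, h.5, fun t ht x i => by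
      have := h.6 t ht x i
      unfold D
      linarith⟩

lemma sol_zero_iff (I : Set ℝ) (u : ℝ → V → V) (p : ℝ → V → ℝ) :
    IsEuler I u p ↔ IsSolution (fun _ _ => 0) I u (fun t x => p t x + (∑ i, u t x i ^ 2) / 2) := by
  rw [euler_iff, sol_iff]
  constructor
  · intro h; exact MB.modSol_of_euler h
  · intro h
    have := MB.euler_of_modSol h
    have e : (fun t x => (p t x + (∑ i, u t x i ^ 2) / 2) - (∑ i, u t x i ^ 2) / 2) = p := by
      funext t x; ring
    rwa [e] at this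

lemma op_of (m : ℝ → ℝ) {T : (V → V) → V → V} (h : MB.IsReg m T) : IsOperator m T := by
  have hper := h.per
  refine ⟨h.per, h.add, h.smul, ?_, h.div, ?_, h.ck⟩
  · intro u w hu hpu hw hpw
    rw [prod_eq (h.per u hu hpu) hpw, prod_eq hpu (h.per w hw hpw)]
    exact h.symm u w hu hpu hw hpw
  · obtain ⟨C, hC, h1⟩ := h.l2
    refine ⟨C, hC, fun u hu hp => ?_⟩
    rw [prod_self (h.per u hu hp), prod_self hp]
    exact h1 u hu hp

lemma tube_eq (ρ : ℝ) : Tube ρ = MB.Tube ρ := rfl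

lemma per_int {F : Type} {f : V → F} (hp : Periodic3 f) (i : Fin 3) (k : ℤ) (x : V) :
    f (x + Pi.single i (k * (2 * Real.pi))) = f x := by
  have h : Function.Periodic (fun s : ℝ => f (x + Pi.single i s)) (2 * Real.pi) := by
    intro s
    simp only
    rw [Pi.single_add, ← add_assoc, hp i]
  have h1 := h.int_mul k 0
  simp only [zero_add, Pi.single_zero, add_zero] at h1
  exact h1

/-- a periodic function is determined by its values on the torus -/
lemma eq_of_torus {u v : V → V} (hu : Periodic3 u) (hv : Periodic3 v)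
    (h : ∀ x ∈ torus, u x = v x) : u = v := by
  funext x
  obtain ⟨k, hk⟩ := Pool.Agent.R739.ET.wr_exists (x 0)
  obtain ⟨l, hl⟩ := Pool.Agent.R739.ET.wr_exists (x 1)
  obtain ⟨m, hm⟩ := Pool.Agent.R739.ET.wr_exists (x 2)
  set y : V := ![Pool.Agent.R739.ET.wr (x 0), Pool.Agent.R739.ET.wr (x 1),
    Pool.Agent.R739.ET.wr (x 2)] with hy
  have hmem : y ∈ torus := by
    rw [torus, mem_Icc, Pi.le_def, Pi.le_def]
    constructor
    · intro i
      fin_cases i
      · exact (Pool.Agent.R739.ET.wr_mem (x 0)).1.le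
      · exact (Pool.Agent.R739.ET.wr_mem (x 1)).1.le
      · exact (Pool.Agent.R739.ET.wr_mem (x 2)).1.le
    · intro i
      fin_cases i
      · exact (Pool.Agent.R739.ET.wr_mem (x 0)).2
      · exact (Pool.Agent.R739.ET.wr_mem (x 1)).2
      · exact (Pool.Agent.R739.ET.wr_mem (x 2)).2
  have hx : x = ((y + Pi.single 0 (k * (2 * Real.pi))) + Pi.single 1 (l * (2 * Real.pi)))
      + Pi.single 2 (m * (2 * Real.pi)) := by
    have y0 : y 0 = Pool.Agent.R739.ET.wr (x 0) := rfl
    have y1 : y 1 = Pool.Agent.R739.ET.wr (x 1) := rfl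
    have y2 : y 2 = Pool.Agent.R739.ET.wr (x 2) := rfl
    clear_value y
    ext i
    fin_cases i
    · simp only [Fin.zero_eta, Pi.add_apply, Pi.single_eq_same, y0]
      rw [Pi.single_eq_of_ne (by decide), Pi.single_eq_of_ne (by decide), add_zero, add_zero]
      exact hk
    · simp only [Fin.mk_one, Pi.add_apply, Pi.single_eq_same, y1]
      rw [Pi.single_eq_of_ne (by decide), Pi.single_eq_of_ne (by decide), add_zero, add_zero]
      exact hl
    · simp only [Fin.reduceFinMk, Pi.add_apply, Pi.single_eq_same, y2]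
      rw [Pi.single_eq_of_ne (by decide), Pi.single_eq_of_ne (by decide), add_zero, add_zero]
      exact hm
  rw [hx, per_int hu, per_int hu, per_int hu, per_int hv, per_int hv, per_int hv]
  exact h y hmem

lemma par_torus {w : ℝ × ℝ → ℝ} (hs : tsupport w ⊆ Ioo 0 1 ×ˢ Ioo (-1) 1) {x : V}
    (hx : x ∈ torus) : MB.par w x = ![0, 0, w (x 0, x 1)] := by
  have hpi := Real.pi_gt_three
  have hsupp : ∀ z : ℝ × ℝ, (1 ≤ |z.1| ∨ 1 ≤ |z.2|) → w z = 0 := by
    intro z hz
    by_contra h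
    have h1 := hs (subset_tsupport _ h)
    have h2 : |z.1| < 1 := abs_lt.2 ⟨by linarith [h1.1.1], h1.1.2⟩
    have h3 : |z.2| < 1 := abs_lt.2 h1.2
    rcases hz with h | h <;> linarith
  rw [torus, mem_Icc, Pi.le_def, Pi.le_def] at hx
  have hw : w (MB.pr x) = w (x 0, x 1) := by
    unfold MB.pr
    rcases eq_or_lt_of_le (hx.1 0) with h0 | h0
    · have e0 : Pool.Agent.R739.ET.wr (x 0) = Real.pi :=
        Pool.Agent.R739.ET.wr_eq ⟨by linarith, le_rfl⟩ ⟨-1, by push_cast; linarith⟩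
      rw [hsupp _ (Or.inl _), hsupp _ (Or.inl _)]
      · simp only
        rw [← h0, abs_neg, abs_of_pos (by linarith)]; linarith
      · simp only
        rw [e0, abs_of_pos (by linarith)]; linarith
    · have e0 : Pool.Agent.R739.ET.wr (x 0) = x 0 :=
        Pool.Agent.R739.ET.wr_eq ⟨h0, hx.2 0⟩ ⟨0, by simp⟩
      rcases eq_or_lt_of_le (hx.1 1) with h1 | h1
      · have e1 : Pool.Agent.R739.ET.wr (x 1) = Real.pi :=
          Pool.Agent.R739.ET.wr_eq ⟨by linarith, le_rfl⟩ ⟨-1, by push_cast; linarith⟩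
        rw [hsupp _ (Or.inr _), hsupp _ (Or.inr _)]
        · simp only
          rw [← h1, abs_neg, abs_of_pos (by linarith)]; linarith
        · simp only
          rw [e1, abs_of_pos (by linarith)]; linarith
      · have e1 : Pool.Agent.R739.ET.wr (x 1) = x 1 :=
          Pool.Agent.R739.ET.wr_eq ⟨h1, hx.2 1⟩ ⟨0, by simp⟩
        rw [e0, e1]
  unfold MB.par
  rw [hw]

lemma datum_eq {a : ℝ} {u₀ : V → V} (h : IsDatum a u₀) :
    ∃ w, MB.Profile a w ∧ u₀ = MB.par w := by
  obtain ⟨hp, w, h1, h2, h3, h4, h5⟩ := h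
  refine ⟨w, ⟨h1, h2, h3, h4⟩, eq_of_torus hp (MB.par_periodic w) fun x hx => ?_⟩
  rw [h5 x hx, par_torus h3 hx]

lemma datum_par {a : ℝ} {w : ℝ × ℝ → ℝ} (h : MB.Profile a w) : IsDatum a (MB.par w) :=
  ⟨MB.par_periodic w, w, h.smooth, h.le_one, h.supp, h.big, fun _ hx => par_torus h.supp hx⟩

/-- for a divergence free field with vanishing horizontal components the gradient is controlled
by the vorticity -/
lemma grad_le_curl {v : V → V} (hv : Differentiable ℝ v) (h : ∀ x, v x 0 = 0 ∧ v x 1 = 0)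
    (hd : ∀ x, div v x = 0) (x : V) : ‖fderiv ℝ v x‖ ≤ 2 * ‖curl v x‖ := by
  have h0 : ∀ j, D v x j 0 = 0 := by
    intro j
    unfold D
    have e : fderiv ℝ v x (Pi.single j 1) 0 = fderiv ℝ (fun x => v x 0) x (Pi.single j 1) := by
      rw [fderiv_apply (hv x)]; rfl
    have e' : (fun x => v x 0) = fun _ => 0 := funext fun y => (h y).1
    rw [e, e']; simp
  have h1 : ∀ j, D v x j 1 = 0 := by
    intro j
    unfold D
    have e : fderiv ℝ v x (Pi.single j 1) 1 = fderiv ℝ (fun x => v x 1) x (Pi.single j 1) := by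
      rw [fderiv_apply (hv x)]; rfl
    have e' : (fun x => v x 1) = fun _ => 0 := funext fun y => (h y).2
    rw [e, e']; simp
  have h2 : D v x 2 2 = 0 := by
    have := hd x
    unfold div at this
    rw [Fin.sum_univ_three, h0, h1] at this
    linarith
  have c0 : curl v x 0 = D v x 1 2 := by
    simp [curl, h1]
  have c1 : curl v x 1 = -D v x 0 2 := by
    simp [curl, h0]
  have b0 : |D v x 1 2| ≤ ‖curl v x‖ := by
    rw [← c0, ← Real.norm_eq_abs]; exact norm_le_pi_norm _ 0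
  have b1 : |D v x 0 2| ≤ ‖curl v x‖ := by
    have : |curl v x 1| ≤ ‖curl v x‖ := by
      rw [← Real.norm_eq_abs]; exact norm_le_pi_norm _ 1
    rwa [c1, abs_neg] at this
  refine ContinuousLinearMap.opNorm_le_bound _ (by positivity) fun y => ?_
  have hy : y = ∑ j, y j • (Pi.single j 1 : V) := by
    ext i
    rw [Finset.sum_apply]
    simp [Pi.single_apply]
  have hcomp : ∀ i, fderiv ℝ v x y i = ∑ j, y j * D v x j i := by
    intro i
    conv_lhs => rw [hy]
    rw [map_sum, Finset.sum_apply]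
    refine Finset.sum_congr rfl fun j _ => ?_
    rw [map_smul]
    rfl
  have hyj : ∀ j, |y j| ≤ ‖y‖ := fun j => by
    rw [← Real.norm_eq_abs]; exact norm_le_pi_norm _ j
  have hc0 : 0 ≤ ‖curl v x‖ := norm_nonneg _
  rw [pi_norm_le_iff_of_nonneg (by positivity)]
  intro i
  rw [hcomp, Fin.sum_univ_three, Real.norm_eq_abs]
  fin_cases i
  · simp only [Fin.zero_eta, h0, mul_zero, add_zero, abs_zero]; positivity
  · simp only [Fin.mk_one, h1, mul_zero, add_zero, abs_zero]; positivity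
  · simp only [Fin.reduceFinMk, h2, mul_zero, add_zero]
    calc |y 0 * D v x 0 2 + y 1 * D v x 1 2| ≤ |y 0 * D v x 0 2| + |y 1 * D v x 1 2| := abs_add_le _ _
      _ = |y 0| * |D v x 0 2| + |y 1| * |D v x 1 2| := by rw [abs_mul, abs_mul]
      _ ≤ ‖y‖ * ‖curl v x‖ + ‖y‖ * ‖curl v x‖ := by
          gcongr
          · exact hyj 0
          · exact hyj 1
      _ = 2 * ‖curl v x‖ * ‖y‖ := by ring

/-- the vorticity is controlled by the gradient -/
lemma curl_le_grad (v : V → V) (x : V) : ‖curl v x‖ ≤ 4 * ‖fderiv ℝ v x‖ := by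
  have hD : ∀ j i, |D v x j i| ≤ ‖fderiv ℝ v x‖ := by
    intro j i
    have h1 : ‖(Pi.single j 1 : V)‖ ≤ 1 := by
      rw [pi_norm_le_iff_of_nonneg zero_le_one]
      intro k
      by_cases h : k = j
      · subst h; simp
      · rw [Pi.single_eq_of_ne h]; simp
    calc |D v x j i| ≤ ‖fderiv ℝ v x (Pi.single j 1)‖ := by
          rw [← Real.norm_eq_abs]; exact norm_le_pi_norm _ i
      _ ≤ ‖fderiv ℝ v x‖ * ‖(Pi.single j 1 : V)‖ := ContinuousLinearMap.le_opNorm _ _
      _ ≤ ‖fderiv ℝ v x‖ * 1 := by gcongr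
      _ = ‖fderiv ℝ v x‖ := mul_one _
  have h0 : 0 ≤ ‖fderiv ℝ v x‖ := norm_nonneg _
  have hd : ∀ j i k l, |D v x j i - D v x k l| ≤ 4 * ‖fderiv ℝ v x‖ := by
    intro j i k l
    have h1 := hD j i
    have h2 := hD k l
    rw [abs_le] at h1 h2 ⊢
    constructor <;> linarith [h1.1, h1.2, h2.1, h2.2]
  rw [pi_norm_le_iff_of_nonneg (by positivity)]
  intro i
  rw [Real.norm_eq_abs]
  fin_cases i
  · exact hd 1 2 2 1
  · exact hd 2 0 0 2
  · exact hd 0 1 1 0

/-- **Blow-up for equations arbitrarily close to the Euler equations, and Osgood's condition.** Let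
`m` be a modulus of continuity.

(1) If Osgood's condition fails for `m`, `∫₀¹ dr / m(r) < ∞`, and `ρ > 0`, there are one operator
`T`, linear, symmetric and bounded on `L²`, with divergence free values, which maps `C^k` to `C^k`
with derivatives of order `k` of modulus of continuity `m`, for every `k`, and acts only in the tube
of radius `ρ` around one closed line, and a nonempty class of data `u₀`, all of them stationary
solutions of the Euler equations, such that for every real `ε ≠ 0` the equation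
`∂ₜ u + (curl u) × (u + ε T u) + ∇ q = 0`, `div u = 0` has a smooth solution with datum
`sign(ε) u₀` on the time interval `[0, L / |ε|)`, which is bounded, unique and maximal, and its
vorticity satisfies `∫ sup |curl u| dt = ∞`. For `ε = 0` this equation is the Euler equation, and
for every `ε` the energy `∫ u · (u + ε T u)` is conserved.

(2) If Osgood's condition holds for `m`, `∫₀¹ dr / m(r) = ∞`, then for every such operator `T`
(wherever it acts) and every `ε` the vorticity of every parallel solution `u = (0, 0, w)` stays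
bounded on bounded time intervals. -/
theorem result (m : ℝ → ℝ) (hm : Modulus m) (ρ : ℝ) (hρ : 0 < ρ) :
    (∀ (I : Set ℝ) (u : ℝ → V → V) (p : ℝ → V → ℝ), IsEuler I u p ↔
      IsSolution (fun _ _ => 0) I u (fun t x => p t x + (∑ i, u t x i ^ 2) / 2)) ∧
    (IntegrableOn (fun r => 1 / m r) (Ioc 0 1) →
      ∃ (T : (V → V) → V → V) (a : ℝ), IsOperator m T ∧
        (∀ u, ∀ x ∉ Tube ρ, T u x = 0) ∧ (∀ u w, (∀ x ∈ Tube ρ, u x = w x) → T u = T w) ∧
        (∀ (ε b : ℝ) (u : ℝ → V → V) (q : ℝ → V → ℝ),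
          IsSolution (fun u x => ε • T u x) (Ico 0 b) u q → ∀ t ∈ Ico 0 b,
            prod (u t) (fun x => u t x + ε • T (u t) x)
              = prod (u 0) (fun x => u 0 x + ε • T (u 0) x)) ∧
        0 < a ∧ a < 1 / 2 ∧ (∃ u₀, IsDatum a u₀) ∧ ∀ u₀, IsDatum a u₀ →
          IsEuler univ (fun _ => u₀) (fun _ _ => 0) ∧
          ∃ L : ℝ, 0 < L ∧ ∀ ε : ℝ, ε ≠ 0 → ∃ (u : ℝ → V → V) (q : ℝ → V → ℝ),
            (u 0 = fun x => Real.sign ε • u₀ x) ∧
            IsSolution (fun u x => ε • T u x) (Ico 0 (L / |ε|)) u q ∧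
            ContDiffOn ℝ ∞ (fun z : ℝ × V => u z.1 z.2) (Ico 0 (L / |ε|) ×ˢ univ) ∧
            ContDiffOn ℝ ∞ (fun z : ℝ × V => q z.1 z.2) (Ico 0 (L / |ε|) ×ˢ univ) ∧
            (∀ t x, ‖u t x‖ ≤ 1) ∧ (∀ t x, u t x 0 = 0 ∧ u t x 1 = 0) ∧
            (∀ (b : ℝ) (v : ℝ → V → V) (r : ℝ → V → ℝ),
              IsSolution (fun u x => ε • T u x) (Ico 0 b) v r → v 0 = u 0 →
                b ≤ L / |ε| ∧ ∀ t ∈ Ico 0 b, v t = u t) ∧
            ∀ g : ℝ → ℝ, IntegrableOn g (Ico 0 (L / |ε|)) →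
              ∃ t ∈ Ico 0 (L / |ε|), ∃ x, g t < ‖curl (u t) x‖) ∧
    (¬ IntegrableOn (fun r => 1 / m r) (Ioc 0 1) →
      ∀ T : (V → V) → V → V, IsOperator m T →
        ∀ (ε b : ℝ) (u : ℝ → V → V) (q : ℝ → V → ℝ),
          IsSolution (fun u x => ε • T u x) (Ico 0 b) u q →
          (∀ t ∈ Ico 0 b, ∀ x, u t x 0 = 0 ∧ u t x 1 = 0) →
            ∃ M : ℝ, ∀ t ∈ Ico 0 b, ∀ x, ‖curl (u t) x‖ ≤ M) := by
  refine ⟨fun I u p => sol_zero_iff I u p, fun hint => ?_, fun hos => ?_⟩
  · obtain ⟨T, a, h1, h2, h3, h4, h5, h6, ⟨w₁, hw₁⟩, h8⟩ :=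
      MB.main3 m ⟨hm.pos, hm.mono, hm.anti, hint⟩ ρ hρ
    have hper : ∀ (ε : ℝ) (u : V → V), Continuous u → Periodic3 u →
        Periodic3 (fun x => u x + ε • T u x) := by
      intro ε u hu hp i x
      simp only
      rw [hp i x, h1.per u hu hp i x]
    refine ⟨T, a, op_of m h1, h2, h3, ?_, h5, h6, ⟨_, datum_par hw₁⟩, ?_⟩
    · intro ε b u q hu t ht
      have hu' := (sol_iff _ _ _ _).1 hu
      have h0 : (0 : ℝ) ∈ Ico 0 b := ⟨le_rfl, ht.1.trans_lt ht.2⟩
      have ct := Pool.Agent.H708R2.EulerSign.contDiff_slice hu'.contDiffOn_u ht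
      have c0 := Pool.Agent.H708R2.EulerSign.contDiff_slice hu'.contDiffOn_u h0
      rw [prod_eq (hu.periodic_u t ht) (hper ε _ ct.continuous (hu.periodic_u t ht)),
        prod_eq (hu.periodic_u 0 h0) (hper ε _ c0.continuous (hu.periodic_u 0 h0))]
      exact h4 ε b u q hu' t ht
    · intro u₀ hu₀
      obtain ⟨w, hw, rfl⟩ := datum_eq hu₀
      obtain ⟨h9, L, hL, h10⟩ := h8 w hw
      refine ⟨(euler_iff _ _ _).2 h9, L, hL, fun ε hε => ?_⟩
      obtain ⟨u, q, g1, g2, g3, g4, g5, g6, g7, g8⟩ := h10 ε hε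
      refine ⟨u, q, g1, (sol_iff _ _ _ _).2 g2, g3, g4, g5, g6, fun b v r hv hv0 =>
        g7 b v r ((sol_iff _ _ _ _).1 hv) hv0, fun g hg => ?_⟩
      by_contra hcon
      push Not at hcon
      obtain ⟨t, ht, x, h11⟩ := g8 (fun t => 2 * g t) (hg.const_mul 2)
      have ct := Pool.Agent.H708R2.EulerSign.contDiff_slice g2.contDiffOn_u ht
      have h12 := grad_le_curl (ct.differentiable one_ne_zero) (g6 t)
        (fun x => g2.div_free t ht x) x
      have h13 := hcon t ht x
      linarith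
  · intro T hT ε b u q hu hpar
    obtain ⟨M, hM⟩ := Pool.Agent.Zk50.MB4.osgood_side hm.pos hm.mono hm.anti hos hT.regular
      ((sol_iff _ _ _ _).1 hu) hpar
    exact ⟨4 * M, fun t ht x => (curl_le_grad (u t) x).trans (by
      have := hM t ht x
      linarith)⟩

end Pool.Agent.Results.MP_b0497c_an.InertiaBlowup
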