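import Pool.Agent.Zk27.OC.B

/-!
# Two scalars in one direction, and one component or one directional derivative of the velocity,
# at a singularity of the Euler equations

Let `u` be a smooth periodic solution of the Euler equations on `𝕋³ × [0, T)`, `ω` its vorticity. By
the criterion of Beale, Kato and Majda there is no singularity at the time `T` if `∫ sup |ω| dt` is
finite. We show that two scalar quantities in one direction `e` are enough: the component `ω · e` of
the vorticity and the rate of strain `e · ∇(u · e)`. The direction `e` may be chosen anew at every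
time, and only the values on a disc orthogonal to `e` around one point of maximal vorticity are
needed. If both are at most `a(t)`, there is no singularity if the integral of
`a (1 + log (1 + ‖D³u‖²))` over `[0, c]` is at most `C + η log (1 / (T - c))`, with an absolute constant
`η`; in particular if this integral is finite for `c = T`, or if `∫ a dt` is finite and `‖D³u‖` grows at
most like a power of `1 / (T - t)`. At a Type I singularity, `|∇u| ≤ C / (T - t)`, it is enough to
control the gradient of one component `u · e` or the derivative `∂_e u` in one direction.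

The idea: at a point where the vorticity `ω` is maximal consider the plane orthogonal to `e`. In this
plane the curl of the tangential velocity is `ω · e` and its divergence is `-e · ∇(u · e)`. So these two
functions on a disc of the plane control the strain in the plane, up to a logarithm, and this strain
controls the growth of the vorticity, up to terms with `ω · e`. For power growth the logarithm is at
most a multiple of `log (1 / (T - t))`, and as the integral of `a` over a short interval before `T` is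
small, the vorticity grows at most like a small power of `1 / (T - t)`, which is integrable. The
component `ω · e` itself is stretched by `ω · ∇(u · e) = ω · ∂_e u` (and by the motion of `e`).
-/

open MeasureTheory Set

set_option autoImplicit false

namespace Pool.Agent.Results.MP_b0497c_an.OneComponent

open Pool.Agent.H708R2.EulerSign Pool.Agent.H708R2.EulerTypeI

/-- No singularity at the time `T`: the `L²` norm of the third derivatives stays bounded on
`[0, T)`. -/
def Regular (T : ℝ) (u : ℝ → V → V) : Prop :=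
  ∃ M : ℝ, ∀ t ∈ Ico 0 T, H459R3.EU.dsq (u t) ≤ M

/-- `‖D³u(t)‖² ≤ C (T - t)^(-k)` for some constants `C`, `k`. -/
def AnyPower (T : ℝ) (u : ℝ → V → V) : Prop :=
  ∃ C k : ℝ, ∀ t ∈ Ioo 0 T, H459R3.EU.dsq (u t) ≤ C * (T - t) ^ (-k)

/-- For all `c < T` the integral over `[0, c]` of `a (1 + log (1 + ‖D³u‖²))` is finite and at most
`C + η log (1 / (T - c))`, for some constant `C`. -/
def LogBound (T η : ℝ) (u : ℝ → V → V) (a : ℝ → ℝ) : Prop :=
  (∀ c ∈ Ioo 0 T, IntegrableOn (fun t => a t * (1 + Real.log (1 + H459R3.EU.dsq (u t))))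
    (Ioo 0 c)) ∧
  ∃ C : ℝ, ∀ c ∈ Ioo 0 T, ∫ t in Ioo 0 c, a t * (1 + Real.log (1 + H459R3.EU.dsq (u t)))
    ≤ C + η * Real.log (1 / (T - c))

/-- The condition for the function `a` of time: `LogBound`, or `∫ a dt` is finite and `‖D³u‖` grows at
most like a power. -/
def Bound (T η : ℝ) (u : ℝ → V → V) (a : ℝ → ℝ) : Prop :=
  LogBound T η u a ∨ (AnyPower T u ∧ IntegrableOn a (Ioo 0 T))

/-- `|ω(t, x)| ≤ C (T - t)^(-κ)` and `‖D³u(t)‖² ≤ C (T - t)^(-k)` for some constants `C`, `k`. -/
def PowerGrowth (T κ : ℝ) (u : ℝ → V → V) : Prop :=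
  ∃ C k : ℝ, ∀ t ∈ Ioo 0 T, H459R3.EU.dsq (u t) ≤ C * (T - t) ^ (-k) ∧
    ∀ x, nrm (vort (u t) x) ≤ C * (T - t) ^ (-κ)

/-- `|∂ⱼuᵢ(t, x)| ≤ C (T - t)^(-κ)` for some constant `C`. -/
def GradientRate (T κ : ℝ) (u : ℝ → V → V) : Prop :=
  ∃ C : ℝ, ∀ t ∈ Ioo 0 T, ∀ x i j, |H459R3.NS.pd j (fun y => u t y i) x| ≤ C * (T - t) ^ (-κ)

/-- The conditions for the rate `κ` and the function `a` of time. Either `κ ≥ 1`, the vorticity and
the third derivatives grow like powers and `∫ a (T - t)^(1 - κ) dt` is finite; or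
`κ = (3 q - 1) / (2 q)` for some `q ≥ 1`, the velocity gradient is at most `C (T - t)^(-κ)`, and
`∫ a^q dt` is finite. -/
def Rates (T κ : ℝ) (u : ℝ → V → V) (a : ℝ → ℝ) : Prop :=
  (1 ≤ κ ∧ PowerGrowth T κ u ∧ IntegrableOn (fun t => a t * (T - t) ^ (1 - κ)) (Ioo 0 T)) ∨
  ∃ q : ℝ, 1 ≤ q ∧ κ = (3 * q - 1) / (2 * q) ∧ GradientRate T κ u ∧
    IntegrableOn (fun t => a t ^ q) (Ioo 0 T)

/-- A continuously differentiable curve of unit vectors. -/
def UnitCurve (T : ℝ) (e : ℝ → V) : Prop :=
  ContDiffOn ℝ 1 e (Ioo 0 T) ∧ ∀ t ∈ Ioo 0 T, nrm (e t) = 1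

/-- The condition for the radii of the discs: `R > 0`, and `∫ M / R dt` is finite for some
`M(t)` with `|u(t, y) - u(t, x)| ≤ M(t)` for all `x`, `y`. -/
def Radii (T : ℝ) (u : ℝ → V → V) (R : ℝ → ℝ) : Prop :=
  (∀ t ∈ Ioo 0 T, 0 < R t) ∧ ∃ M : ℝ → ℝ,
    (∀ t ∈ Ioo 0 T, ∀ x y, nrm (u t y - u t x) ≤ M t) ∧
    IntegrableOn (fun t => M t / R t) (Ioo 0 T)

/-- `x` is a point where the vorticity of the field `v` has its maximum. -/
def IsMax (v : V → V) (x : V) : Prop := ∀ y, nrm (vort v y) ≤ nrm (vort v x)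

/-- `P` holds on the open disc with centre `x` and radius `r` orthogonal to `e`. -/
def OnDisc (x e : V) (r : ℝ) (P : V → Prop) : Prop :=
  ∀ y, e ⬝ᵥ (y - x) = 0 → nrm (y - x) < r → P y

/-- The two scalars: `|ω · e| ≤ b` and `|e · ∇(v · e)| ≤ b` at the point `y`, `ω` the vorticity of
`v`. -/
def Scalars (v : V → V) (e : V) (b : ℝ) (y : V) : Prop :=
  |vort v y ⬝ᵥ e| ≤ b ∧ |e ⬝ᵥ (grad v y).mulVec e| ≤ b

/-- `|∇(v · e)| ≤ b` everywhere, entrywise. -/
def ComponentLE (v : V → V) (e : V) (b : ℝ) : Prop :=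
  ∀ x j, |H459R3.NS.pd j (fun y => e ⬝ᵥ v y) x| ≤ b

/-- `|∂_e v| ≤ b` everywhere. -/
def DerivativeLE (v : V → V) (e : V) (b : ℝ) : Prop :=
  ∀ x, nrm ((grad v x).mulVec e) ≤ b

/-- There is an absolute constant `η > 0` with the following properties. Let `(u, p)` be a smooth
periodic solution of the Euler equations on `[0, T)`.

(1) If for almost every `t` there is a unit vector `e` with `|ω · e| ≤ a(t)` and
`|e · ∇(u · e)| ≤ a(t)` everywhere, where `a` satisfies `Bound`, for instance
`∫ a (1 + log (1 + ‖D³u‖²)) dt < ∞`, or `∫ a dt < ∞` and `‖D³u‖` grows at most like a power of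
`1 / (T - t)`, then there is no singularity at the time `T`.

(2) It suffices that these inequalities hold on a disc of radius `R(t)` orthogonal to `e` around one
point where `|ω|` is maximal, if `Radii` holds.

(3) Let `e(t)` be a continuously differentiable curve of unit vectors with `|e'| ≤ a`, and let
`Rates` hold, for instance `|∇u| ≤ C / (T - t)` and `∫ a dt < ∞`. If for all `t` the gradient of `u · e`
or the derivative `∂_e u` is at most `a(t)`, then there is no singularity at the time `T`. -/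
theorem result : ∃ η : ℝ, 0 < η ∧
    ∀ (T : ℝ) (_ : 0 < T) (u : ℝ → V → V) (p : ℝ → V → ℝ) (_ : H459R3.NS.IsSol 0 T u p),
    (∀ a : ℝ → ℝ, Bound T η u a →
      (∀ᵐ t, t ∈ Ioo 0 T → ∃ e, nrm e = 1 ∧ ∀ y, Scalars (u t) e (a t) y) →
      Regular T u) ∧
    (∀ a R : ℝ → ℝ, Bound T η u a → Radii T u R →
      (∀ᵐ t, t ∈ Ioo 0 T → ∃ x e, IsMax (u t) x ∧ nrm e = 1 ∧
        OnDisc x e (R t) (Scalars (u t) e (a t))) →
      Regular T u) ∧
    (∀ (κ : ℝ) (e : ℝ → V) (a : ℝ → ℝ), Rates T κ u a → UnitCurve T e →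
      (∀ t ∈ Ioo 0 T, nrm (deriv e t) ≤ a t ∧
        (ComponentLE (u t) (e t) (a t) ∨ DerivativeLE (u t) (e t) (a t))) →
      Regular T u) := by
  refine ⟨Zk27.OC.eta, Zk27.OC.eta_pos, fun T hT u p h => ?_⟩
  have hbound : ∀ a : ℝ → ℝ, Bound T Zk27.OC.eta u a → LogBound T Zk27.OC.eta u a := by
    rintro a (ha | ⟨⟨C, k, hk⟩, ha⟩)
    · exact ha
    · exact Zk27.OC.budget hT h hk ha Zk27.OC.eta_pos
  refine ⟨?_, ?_, ?_⟩
  · rintro a hb hyp
    obtain ⟨h1, C, h2⟩ := hbound a hb
    exact Zk27.OC.log_crit hT h h1 h2 hyp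
  · rintro a R hb ⟨hR, M, hM, hMR⟩ hyp
    obtain ⟨h1, C, h2⟩ := hbound a hb
    exact Zk27.OC.disc_crit hT h h1 h2 hR hM hMR hyp
  · intro κ e a hr he hyp
    have ha0 : ∀ t ∈ Ioo 0 T, 0 ≤ a t := fun t ht => (nrm_nonneg _).trans (hyp t ht).1
    set R : ℝ → ℝ := fun t => (T - t) ^ (-(3 / 5 * κ)) * (1 + |Real.log (T - t)|) with hRd
    have hR : (∀ t ∈ Ioo 0 T, 0 < R t) ∧ IntegrableOn
        (fun t => (T - t) ^ (-(3 / 5 * κ)) * (1 + |Real.log (T - t)|) / R t) (Ioo 0 T) := by
      have hR0 : ∀ t ∈ Ioo 0 T, 0 < R t := fun t ht => by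
        have : 0 < T - t := by linarith [ht.2]
        simp only [hRd]
        positivity
      refine ⟨hR0, ?_⟩
      have h1 : IntegrableOn (fun _ : ℝ => (1 : ℝ)) (Ioo 0 T) := integrableOn_const (by simp)
      refine h1.congr_fun (fun t ht => ?_) measurableSet_Ioo
      exact (div_self (hR0 t ht).ne').symm
    -- a bound for the vorticity
    obtain ⟨B, hB0, hB⟩ : ∃ B : ℝ, 0 ≤ B ∧ ∀ t ∈ Ioo 0 T, ∀ x,
        nrm (vort (u t) x) ≤ B * (T - t) ^ (-κ) := by
      rcases hr with ⟨-, ⟨C, k, hC⟩, -⟩ | ⟨q, -, -, ⟨C, hC⟩, -⟩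
      · refine ⟨|C|, abs_nonneg _, fun t ht x => ((hC t ht).2 x).trans ?_⟩
        exact mul_le_mul_of_nonneg_right (le_abs_self _)
          (Real.rpow_nonneg (by linarith [ht.2]) _)
      · refine ⟨4 * C, by have := Zk61.EU.rate_nonneg hT hC; positivity, fun t ht x => ?_⟩
        have := Zk61.EU.vort_le_gb h ⟨ht.1.le, ht.2⟩ (hC t ht) x
        linarith
    have htwo : ∀ t ∈ Ioo 0 T,
        Zk61.EU.TwoPt T κ u e (fun t => (2 + 2 * B) * a t) (fun _ => 0) R t := by
      intro t ht
      obtain ⟨h1, h2 | h2⟩ := hyp t ht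
      · exact Zk61.EU.twoPt_of_all h hB0 ht (hB t ht) (he.2 t ht) h1 h2 (fun _ => 0) R
      · exact Zk27.OC.twoPt_of_dir h hB0 ht (hB t ht) (he.2 t ht) h1 h2 (fun _ => 0) R
    have hc : 0 ≤ 2 + 2 * B := by positivity
    have hz : IntegrableOn (fun _ : ℝ => (0 : ℝ)) (Ioo 0 T) := integrableOn_zero
    rcases hr with ⟨hκ, ⟨C, k, hC⟩, ha⟩ | ⟨q, hq, rfl, ⟨C, hC⟩, ha⟩
    · refine Zk61.EU.two_poly hT h hκ (fun t ht => (hC t ht).2) (fun t ht => (hC t ht).1) he.1 he.2
        ?_ monotoneOn_const hz hR.1 hR.2 (Filter.Eventually.of_forall htwo)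
      have h5 : IntegrableOn (fun t => (2 + 2 * B) * (a t * (T - t) ^ (1 - κ))) (Ioo 0 T) :=
        ha.const_mul (2 + 2 * B)
      simpa only [mul_assoc] using h5
    · refine Zk61.EU.two_rate hT h hq hC he.1 he.2 ?_ monotoneOn_const ?_ hR.1 hR.2
        (Filter.Eventually.of_forall htwo)
      · refine IntegrableOn.congr_fun (ha.const_mul ((2 + 2 * B) ^ q)) (fun t ht => ?_)
          measurableSet_Ioo
        rw [Real.mul_rpow hc (ha0 t ht)]
      · simpa only [zero_mul] using hz

end Pool.Agent.Results.MP_b0497c_an.OneComponent
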