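import Pool.Agent.Zk27.UE.URobust

/-!
# Euler on `𝕋³`: one global smooth solution shadows all solutions, the singular ones included

Let `s > 1`. (1) Given `ε > 0`, a bound `E` for the energy, a mean velocity `m` and a time `T`, there
is *one* smooth solution `u` of the Euler equations which exists for all times, is periodic in time,
and comes near to *every* classical solution `v` with energy at most `E` and mean `m`, whether or
not `v` becomes singular: if `v` exists on `[0, T')`, `T' ≤ T`, then there is `t₀ ≥ 0` with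
`‖u(t₀ + t) - v(t)‖ ≤ ε` in `H^{-s}` for all `t ∈ [0, T')`. The same `u` shadows all curves of any
prescribed bounded equicontinuous class of curves of divergence-free fields with mean `m`. This is a
property of an `L²`-open set of initial velocities: all classical solutions `z` with
`∫ |z(0) - u(0)|² ≤ δ` have it with the same times `t₀`, as long as they exist.

(2) A set of smooth divergence-free fields which is open in the topology of `H^{-s}` and which no
global smooth solution leaves is empty or contains fields `H^{-s}`-close to any field with the same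
mean. So a functional continuous in `H^{-s}` which does not increase along the global smooth
solutions is a function of the mean velocity.
-/

open MeasureTheory Set
open scoped ContDiff

set_option autoImplicit false

namespace Pool.Agent.Results.MP_b0497c_an.UniversalSolution

open Pool.Agent.H708R2.EulerSign Pool.Agent.H708R2.EulerModes
open Pool.Agent.Zk27.UE

/-- `(u, p)` is a smooth solution of the Euler equations on `𝕋³` for all times `t ∈ ℝ`, the pressure
`p` does not depend on time, and every classical solution (on an interval `[0, T')`) which agrees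
with `u` at one time agrees with `u` at all times. -/
def IsGlobalSolution (u : ℝ → V → V) (p : V → ℝ) : Prop :=
  ContDiff ℝ ∞ (fun z : ℝ × V => u z.1 z.2) ∧ ContDiff ℝ ∞ p ∧
    IsClassicalSolution univ u (fun _ => p) ∧
    ∀ (T' : ℝ) (w : ℝ → V → V) (q : ℝ → V → ℝ), IsClassicalSolution (Ico 0 T') w q →
      ∀ t₀ ∈ Ico 0 T', w t₀ = u t₀ → ∀ t ∈ Ico 0 T', w t = u t

/-- `v` is a classical solution of the Euler equations on `[0, T)` whose initial velocity has the
energy `∫ |v|² ≤ E` and the integral `m`. -/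
def IsSolution (T E : ℝ) (m : V) (v : ℝ → V → V) : Prop :=
  (∃ q : ℝ → V → ℝ, IsClassicalSolution (Ico 0 T) v q) ∧
    ∑ i, ∫ x in cube, v 0 x i ^ 2 ≤ E ∧ ∀ i, ∫ x in cube, v 0 x i = m i

/-- `v : [0, T] → L²(𝕋³)` is a curve of (weakly) divergence-free fields with `∫ |v|² ≤ E` and
`∫ v = m` whose Fourier coefficients at the frequency `l` have the modulus of continuity `μ l`. -/
structure IsCurve (T E : ℝ) (m : V) (μ : (Fin 3 → ℤ) → ℝ → ℝ) (v : ℝ → V → V) : Prop where
  periodic : ∀ t ∈ Icc 0 T, Periodic3 (v t)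
  memLp : ∀ t ∈ Icc 0 T, MemLp (v t) 2 (volume.restrict cube)
  divFree : ∀ t ∈ Icc 0 T, WeakDivFree (v t)
  energy : ∀ t ∈ Icc 0 T, ∑ i, ∫ x in cube, v t x i ^ 2 ≤ E
  mean : ∀ t ∈ Icc 0 T, ∀ i, ∫ x in cube, v t x i = m i
  mod_cos : ∀ l i, ∀ t ∈ Icc 0 T, ∀ t' ∈ Icc 0 T,
    |cosCoeff l (fun x => v t x i) - cosCoeff l (fun x => v t' x i)| ≤ μ l |t - t'|
  mod_sin : ∀ l i, ∀ t ∈ Icc 0 T, ∀ t' ∈ Icc 0 T,
    |sinCoeff l (fun x => v t x i) - sinCoeff l (fun x => v t' x i)| ≤ μ l |t - t'|

lemma global_of_sol {u : ℝ → V → V} {p : V → ℝ} (h : Sol u p) : IsGlobalSolution u p :=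
  ⟨h.smooth, h.psmooth, h.classical, fun _ _ _ hw _ ht₀ h0 => h.unique hw ht₀ h0⟩

lemma Cls.mono {T R : ℝ} {μ μ' : (Fin 3 → ℤ) → ℝ → ℝ} {m : V} {A B : (Fin 3 → ℤ) → ℝ → V}
    (h : Cls T R μ m A B) (hμ : ∀ k r, 0 ≤ r → μ k r ≤ μ' k r) : Cls T R μ' m A B :=
  ⟨h.bdA, h.bdB, fun k t ht t' ht' i => (h.modA k t ht t' ht' i).trans (hμ _ _ (abs_nonneg _)),
    fun k t ht t' ht' i => (h.modB k t ht t' ht' i).trans (hμ _ _ (abs_nonneg _)),
    h.orthA, h.orthB, h.symA, h.symB, h.mean⟩

/-- The classical solutions `z` which start near `u(0)` in `L²` (`∫ |z(0) - u(0)|² ≤ δ`) and `u` itself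
follow `v` on the set `J` of times, with the delay `t₀` and the error `ε` in `H^{-s}` (`z` as long as it
exists). -/
def Follows (s ε δ : ℝ) (u : ℝ → V → V) (t₀ : ℝ) (J : Set ℝ) (v : ℝ → V → V) : Prop :=
  (∀ t ∈ J, HNegClose s ε (u (t₀ + t)) (v t)) ∧
    ∀ (S : ℝ) (z : ℝ → V → V) (q : ℝ → V → ℝ), IsClassicalSolution (Ico 0 S) z q →
      ∑ i, ∫ x in cube, (z 0 x i - u 0 x i) ^ 2 ≤ δ →
      ∀ t ∈ J, t₀ + t < S → HNegClose s ε (z (t₀ + t)) (v t)

/-- a smooth periodic divergence-free field -/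
def IsField (a : V → V) : Prop := ContDiff ℝ ∞ a ∧ Periodic3 a ∧ ∀ x, divergence a x = 0

/-- `O` is open among the smooth divergence-free fields in the topology of `H^{-s}`. -/
def HOpen (s : ℝ) (O : Set (V → V)) : Prop :=
  ∀ a ∈ O, IsField a → ∃ ε : ℝ, 0 < ε ∧ ∀ b, IsField b → HNegClose s ε b a → b ∈ O

/-- No smooth solution which exists for all times leaves `O`. -/
def Trapping (O : Set (V → V)) : Prop :=
  ∀ (u : ℝ → V → V) (p : V → ℝ), IsGlobalSolution u p → u 0 ∈ O → ∀ t, 0 ≤ t → u t ∈ O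

/-- `F` is continuous in the topology of `H^{-s}` on the smooth divergence-free fields. -/
def HContinuous (s : ℝ) (F : (V → V) → ℝ) : Prop :=
  ∀ a, IsField a → ∀ η : ℝ, 0 < η →
    ∃ ε : ℝ, 0 < ε ∧ ∀ b, IsField b → HNegClose s ε b a → |F b - F a| ≤ η

/-- `F` does not increase along the smooth solutions which exist for all times. -/
def Nonincreasing (F : (V → V) → ℝ) : Prop :=
  ∀ (u : ℝ → V → V) (p : V → ℝ), IsGlobalSolution u p → ∀ t, 0 ≤ t → F (u t) ≤ F (u 0)

lemma HNegClose.mono {s ε ε' : ℝ} {v u : V → V} (h : HNegClose s ε v u) (h0 : 0 ≤ ε)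
    (hε : ε ≤ ε') : HNegClose s ε' v u := fun S =>
  (h S).trans (pow_le_pow_left₀ h0 hε 2)

/-- part (1) with a solution of which one knows that its translates are solutions -/
theorem main (T E : ℝ) (hT : 0 < T) (m : V) (μ : (Fin 3 → ℤ) → ℝ → ℝ)
    (hμ : ∀ l, ∀ η : ℝ, 0 < η → ∃ δ : ℝ, 0 < δ ∧ ∀ r, 0 ≤ r → r ≤ δ → μ l r ≤ η)
    (s ε : ℝ) (hs : 1 < s) (hε : 0 < ε) :
    ∃ (τ δ : ℝ) (u : ℝ → V → V) (p : V → ℝ), 0 < τ ∧ 0 < δ ∧ Sol u p ∧
      (∀ t, u (t + τ) = u t) ∧
      (∀ (T' : ℝ) (v : ℝ → V → V), 0 < T' → T' ≤ T → IsSolution T' E m v →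
        ∃ t₀ ∈ Ico 0 τ, Follows s ε δ u t₀ (Ico 0 T') v) ∧
      (∀ v : ℝ → V → V, IsCurve T E m μ v →
        ∃ t₀ ∈ Ico 0 τ, Follows s ε δ u t₀ (Icc 0 T) v) := by
  obtain ⟨Lip, hLip, hcls⟩ := solutions_cls E m
  have hμ' : ∀ k, ∀ η : ℝ, 0 < η → ∃ δ : ℝ, 0 < δ ∧ ∀ r, 0 ≤ r → r ≤ δ →
      max (Lip k * r) (μ k r) ≤ η := by
    intro k η hη
    obtain ⟨δ, hδ, h⟩ := hμ k η hη
    have hL := hLip k
    refine ⟨min δ (η / (Lip k + 1)), lt_min hδ (by positivity), fun r h0 hr => max_le ?_ ?_⟩
    · have h1 : r ≤ η / (Lip k + 1) := hr.trans (min_le_right _ _)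
      calc Lip k * r ≤ Lip k * (η / (Lip k + 1)) := by gcongr
        _ = η * (Lip k / (Lip k + 1)) := by ring
        _ ≤ η * 1 := by
            gcongr
            rw [div_le_one (by positivity)]
            linarith
        _ = η := by ring
    · exact h r h0 (hr.trans (min_le_left _ _))
  obtain ⟨τ, u, p, hτ, hsol, hper, huniv⟩ := universal hT E (vl * E + 1) m hμ' hs (half_pos hε)
  obtain ⟨δ, hδ, hrob⟩ := sol_robust hsol hτ hper (by linarith : (0 : ℝ) ≤ s) hε (τ + T)
  have hP : Function.Periodic u τ := hper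
  -- the general step
  have key : ∀ (J : Set ℝ) (v : ℝ → V → V), J ⊆ Icc 0 T →
      (∀ t ∈ J, MemLp (v t) 2 (volume.restrict cube)) →
      (∃ t₀ : ℝ, 0 ≤ t₀ ∧ ∀ t ∈ J, HNegClose s (ε / 2) (u (t₀ + t)) (v t)) →
      ∃ t₀ ∈ Ico 0 τ, Follows s ε δ u t₀ J v := by
    rintro J v hJ hv2 ⟨t₀, -, hclose⟩
    set t₁ : ℝ := t₀ - ⌊t₀ / τ⌋ * τ with ht₁
    have h0 : 0 ≤ t₁ := by
      have := Int.floor_le (t₀ / τ)
      rw [le_div_iff₀ hτ] at this
      linarith
    have h1 : t₁ < τ := by
      have := Int.lt_floor_add_one (t₀ / τ)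
      rw [div_lt_iff₀ hτ] at this
      linarith
    have hu : ∀ t, u (t₁ + t) = u (t₀ + t) := by
      intro t
      have := hP.sub_zsmul_eq (x := t₀ + t) ⌊t₀ / τ⌋
      rw [← this]
      congr 1
      rw [ht₁, zsmul_eq_mul]
      ring
    refine ⟨t₁, ⟨h0, h1⟩, fun t ht => ?_, fun S z q hz hz0 t ht htS => ?_⟩
    · rw [hu]
      exact HNegClose.mono (hclose t ht) (by positivity) (by linarith)
    · have hJt := hJ ht
      have h0S : (0 : ℝ) ∈ Ico 0 S := ⟨le_rfl, lt_of_le_of_lt (add_nonneg h0 hJt.1) htS⟩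
      refine hrob S z q hz ?_ (t₁ + t) ⟨add_nonneg h0 hJt.1, htS⟩
        (add_le_add h1.le hJt.2) (v t) (hv2 t ht) ?_
      · refine le_trans (le_of_eq ?_) hz0
        refine Finset.sum_congr rfl fun i _ => ?_
        refine (integral_cube (f := fun x => (z 0 x i - u 0 x i) ^ 2) ?_).symm
        intro j x
        simp only
        rw [hz.periodic_u 0 h0S j x, hsol.per 0 j x]
      · rw [hu]
        exact hclose t ht
  refine ⟨τ, δ, u, p, hτ, hδ, hsol, hper, ?_, ?_⟩
  · rintro T' v hT' hTT ⟨⟨q, hq⟩, hE, hm⟩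
    have h0T : (0 : ℝ) ∈ Ico 0 T' := ⟨le_rfl, hT'⟩
    have hp0 := hq.periodic_u 0 h0T
    have hE' : ∑ i, ∫ x in Dom, v 0 x i ^ 2 ≤ E := by
      refine le_trans (le_of_eq ?_) hE
      refine Finset.sum_congr rfl fun i _ => ?_
      refine (integral_cube (f := fun x => v 0 x i ^ 2) ?_).symm
      intro j x; simp only; rw [hp0 j x]
    have hm' : ∀ i, ∫ x in Dom, v 0 x i = m i := by
      intro i
      rw [← integral_cube (comp_periodic hp0 i)]
      exact hm i
    obtain ⟨A, B, hC, hmem⟩ := hcls hT' hTT hq hE' hm'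
    refine key (Ico 0 T') v (fun t ht => ⟨ht.1, ht.2.le.trans hTT⟩) (fun t ht => (hmem t ht).2.1) ?_
    obtain ⟨t₀, ht₀, hclose⟩ := huniv A B (Cls.mono hC fun k r _ => le_max_left _ _)
    refine ⟨t₀, ht₀, fun t ht => ?_⟩
    obtain ⟨h1, h2, h3, h4⟩ := hmem t ht
    exact hclose t ⟨ht.1, ht.2.le.trans hTT⟩ (v t) h1 h2 h3 h4
  · intro v hv
    refine key (Icc 0 T) v (fun t ht => ht) (fun t ht => hv.memLp t ht) ?_
    have hE' : ∀ t ∈ Icc 0 T, ∑ i, ∫ x in Dom, v t x i ^ 2 ≤ E := by
      intro t ht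
      refine le_trans (le_of_eq ?_) (hv.energy t ht)
      refine Finset.sum_congr rfl fun i _ => ?_
      refine (integral_cube (f := fun x => v t x i ^ 2) ?_).symm
      intro j x; simp only; rw [hv.periodic t ht j x]
    have cc : ∀ t ∈ Icc 0 T, ∀ l i, cosCoeff l (fun x => v t x i)
        = ∫ x in Dom, v t x i * Real.cos (ph l x) := fun t ht l i =>
      cosCoeff_eq (comp_periodic (hv.periodic t ht) i) l
    have cs : ∀ t ∈ Icc 0 T, ∀ l i, sinCoeff l (fun x => v t x i)
        = ∫ x in Dom, v t x i * Real.sin (ph l x) := fun t ht l i =>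
      sinCoeff_eq (comp_periodic (hv.periodic t ht) i) l
    have hC : Cls T (vl * E + 1) (fun k r => max (Lip k * r) (μ k r)) m
        (fun k t i => ∫ x in Dom, v t x i * Real.cos (ph k x))
        (fun k t i => ∫ x in Dom, v t x i * Real.sin (ph k x)) := by
      refine ⟨?_, ?_, ?_, ?_, ?_, ?_, ?_, ?_, ?_⟩
      · exact fun k t ht i => (coeff_bound (hv.periodic t ht) (hv.memLp t ht) (hE' t ht) k i).1
      · exact fun k t ht i => (coeff_bound (hv.periodic t ht) (hv.memLp t ht) (hE' t ht) k i).2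
      · intro k t ht t' ht' i
        have := hv.mod_cos k i t ht t' ht'
        rw [cc t ht, cc t' ht'] at this
        exact this.trans (le_max_right _ _)
      · intro k t ht t' ht' i
        have := hv.mod_sin k i t ht t' ht'
        rw [cs t ht, cs t' ht'] at this
        exact this.trans (le_max_right _ _)
      · exact fun k t ht =>
          (ph_coeff (hv.periodic t ht) (hv.memLp t ht) (hv.divFree t ht) k).1
      · exact fun k t ht =>
          (ph_coeff (hv.periodic t ht) (hv.memLp t ht) (hv.divFree t ht) k).2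
      · intro k t ht
        ext i
        simp only [ph_neg, Real.cos_neg]
      · intro k t ht
        ext i
        simp only [ph_neg, Real.sin_neg, mul_neg, Pi.neg_apply]
        rw [integral_neg]
      · intro t ht
        ext i
        simp only [ph_zero, Real.cos_zero, mul_one]
        rw [← integral_cube (comp_periodic (hv.periodic t ht) i)]
        exact hv.mean t ht i
    obtain ⟨t₀, ht₀, hclose⟩ := huniv _ _ hC
    exact ⟨t₀, ht₀, fun t ht => hclose t ht (v t) (hv.periodic t ht) (hv.memLp t ht) (hE' t ht)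
      fun k i => ⟨rfl, rfl⟩⟩

lemma IsField.weakDivFree {a : V → V} (h : IsField a) : WeakDivFree a := by
  intro ψ hψ hψp
  have ha1 : ContDiff ℝ 1 a := h.1.of_le (by exact_mod_cast le_top)
  have hψ1 : ContDiff ℝ 1 ψ := hψ.of_le (by exact_mod_cast le_top)
  have hper : Periodic3 (fun x => fderiv ℝ ψ x (a x)) := by
    intro i x
    simp only
    rw [h.2.1 i x, hψp.fderiv i x]
  rw [integral_cube hper]
  have h1 := integral_divergence_eq_zero (v := fun x => ψ x • a x) (hψ1.smul ha1) (by
    intro i x; simp only; rw [h.2.1 i x, hψp i x])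
  rw [← h1]
  congr 1
  ext1 x
  rw [divergence_smul (hψ1.differentiable one_ne_zero x) (ha1.differentiable one_ne_zero x),
    h.2.2 x, mul_zero, zero_add]

lemma isField_of_sol {u : ℝ → V → V} {p : V → ℝ} (h : IsGlobalSolution u p) (t : ℝ) :
    IsField (u t) :=
  ⟨slice h.1 t, h.2.2.1.periodic_u t (mem_univ t), h.2.2.1.div_free t (mem_univ t)⟩

lemma intOn {a : V → V} (h : IsField a) (i : Fin 3) :
    Integrable (fun x => a x i) (volume.restrict cube) := by
  have hfin : IsFiniteMeasure (volume.restrict cube : Measure V) := cube_fin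
  exact (memLp_comp (memLp_cube h.1.continuous) i).integrable (by norm_num)

lemma int_cos {a : V → V} (h : IsField a) (l : Fin 3 → ℤ) (i : Fin 3) :
    Integrable (fun x => a x i * Real.cos (ph l x)) (volume.restrict cube) := by
  refine (intOn h i).mul_bdd (c := 1)
    (Real.continuous_cos.comp (ph_contDiff l).continuous).aestronglyMeasurable
    (Filter.Eventually.of_forall fun x => ?_)
  exact Real.abs_cos_le_one _

lemma int_sin {a : V → V} (h : IsField a) (l : Fin 3 → ℤ) (i : Fin 3) :
    Integrable (fun x => a x i * Real.sin (ph l x)) (volume.restrict cube) := by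
  refine (intOn h i).mul_bdd (c := 1)
    (Real.continuous_sin.comp (ph_contDiff l).continuous).aestronglyMeasurable
    (Filter.Eventually.of_forall fun x => ?_)
  exact Real.abs_sin_le_one _

/-- the segment from `a` to `b` -/
def seg (a b : V → V) (t : ℝ) (x : V) : V := (1 - t) • a x + t • b x

lemma seg_field {a b : V → V} (ha : IsField a) (hb : IsField b) (t : ℝ) :
    IsField (seg a b t) := by
  refine ⟨(ha.1.const_smul (1 - t)).add (hb.1.const_smul t), fun i x => ?_, fun x => ?_⟩
  · unfold seg; rw [ha.2.1 i x, hb.2.1 i x]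
  · have da := ha.1.differentiable (by simp) x
    have db := hb.1.differentiable (by simp) x
    have h1 : HasFDerivAt (seg a b t) ((1 - t) • fderiv ℝ a x + t • fderiv ℝ b x) x :=
      (da.hasFDerivAt.const_smul (1 - t)).add (db.hasFDerivAt.const_smul t)
    have h2 := ha.2.2 x
    have h3 := hb.2.2 x
    rw [divergence_eq_sum] at h2 h3 ⊢
    rw [h1.fderiv]
    simp only [add_apply, smul_apply, Pi.add_apply, Pi.smul_apply, smul_eq_mul,
      Finset.sum_add_distrib, ← Finset.mul_sum, h2, h3, mul_zero, add_zero]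

lemma seg_cos {a b : V → V} (ha : IsField a) (hb : IsField b) (l : Fin 3 → ℤ) (i : Fin 3)
    (t : ℝ) : cosCoeff l (fun x => seg a b t x i)
      = (1 - t) * cosCoeff l (fun x => a x i) + t * cosCoeff l (fun x => b x i) := by
  unfold cosCoeff
  rw [← integral_const_mul, ← integral_const_mul, ← integral_add
    ((int_cos ha l i).const_mul _) ((int_cos hb l i).const_mul _)]
  congr 1
  ext1 x
  simp only [seg, Pi.add_apply, Pi.smul_apply, smul_eq_mul]
  ring

lemma seg_sin {a b : V → V} (ha : IsField a) (hb : IsField b) (l : Fin 3 → ℤ) (i : Fin 3)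
    (t : ℝ) : sinCoeff l (fun x => seg a b t x i)
      = (1 - t) * sinCoeff l (fun x => a x i) + t * sinCoeff l (fun x => b x i) := by
  unfold sinCoeff
  rw [← integral_const_mul, ← integral_const_mul, ← integral_add
    ((int_sin ha l i).const_mul _) ((int_sin hb l i).const_mul _)]
  congr 1
  ext1 x
  simp only [seg, Pi.add_apply, Pi.smul_apply, smul_eq_mul]
  ring

lemma seg_int {a b : V → V} (ha : IsField a) (hb : IsField b) (i : Fin 3) (t : ℝ) :
    ∫ x in cube, seg a b t x i
      = (1 - t) * (∫ x in cube, a x i) + t * ∫ x in cube, b x i := by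
  rw [← integral_const_mul, ← integral_const_mul, ← integral_add
    ((intOn ha i).const_mul _) ((intOn hb i).const_mul _)]
  rfl

lemma int_sq {a : V → V} (h : IsField a) (i : Fin 3) :
    Integrable (fun x => a x i ^ 2) (volume.restrict cube) :=
  (memLp_two_iff_integrable_sq (memLp_comp (memLp_cube h.1.continuous) i).1).1
    (memLp_comp (memLp_cube h.1.continuous) i)

/-- the smooth solutions join neighbourhoods of any two fields with the same mean -/
theorem join {s : ℝ} (hs : 1 < s) {a b : V → V} (ha : IsField a) (hb : IsField b)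
    (hab : ∀ i, ∫ x in cube, a x i = ∫ x in cube, b x i) {ε : ℝ} (hε : 0 < ε) :
    ∃ (u : ℝ → V → V) (p : V → ℝ), IsGlobalSolution u p ∧ HNegClose s ε (u 0) a ∧
      HNegClose s ε (u 1) b := by
  set L : (Fin 3 → ℤ) → ℝ := fun l =>
    ∑ i, (|cosCoeff l (fun x => b x i) - cosCoeff l (fun x => a x i)|
      + |sinCoeff l (fun x => b x i) - sinCoeff l (fun x => a x i)|) with hL
  have hL0 : ∀ l, 0 ≤ L l := fun l => Finset.sum_nonneg fun i _ => by positivity
  have hLc : ∀ l i, |cosCoeff l (fun x => b x i) - cosCoeff l (fun x => a x i)| ≤ L l := by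
    intro l i
    have h1 := Finset.single_le_sum (f := fun i =>
      (|cosCoeff l (fun x => b x i) - cosCoeff l (fun x => a x i)|
      + |sinCoeff l (fun x => b x i) - sinCoeff l (fun x => a x i)|))
      (fun i _ => by positivity) (Finset.mem_univ i)
    have h2 := abs_nonneg (sinCoeff l (fun x => b x i) - sinCoeff l (fun x => a x i))
    rw [hL]
    linarith
  have hLs : ∀ l i, |sinCoeff l (fun x => b x i) - sinCoeff l (fun x => a x i)| ≤ L l := by
    intro l i
    have h1 := Finset.single_le_sum (f := fun i =>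
      (|cosCoeff l (fun x => b x i) - cosCoeff l (fun x => a x i)|
      + |sinCoeff l (fun x => b x i) - sinCoeff l (fun x => a x i)|))
      (fun i _ => by positivity) (Finset.mem_univ i)
    have h2 := abs_nonneg (cosCoeff l (fun x => b x i) - cosCoeff l (fun x => a x i))
    rw [hL]
    linarith
  have hcurve : IsCurve 1 (∑ i, ((∫ x in cube, a x i ^ 2) + ∫ x in cube, b x i ^ 2))
      (fun i => ∫ x in cube, a x i) (fun l r => L l * r) (seg a b) := by
    refine ⟨fun t _ => (seg_field ha hb t).2.1, fun t _ => memLp_cube (seg_field ha hb t).1.continuous,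
      fun t _ => (seg_field ha hb t).weakDivFree, ?_, ?_, ?_, ?_⟩
    · intro t ht
      refine Finset.sum_le_sum fun i _ => ?_
      rw [← integral_add (int_sq ha i) (int_sq hb i)]
      refine integral_mono (int_sq (seg_field ha hb t) i) ((int_sq ha i).add (int_sq hb i)) ?_
      intro x
      simp only [seg, Pi.add_apply, Pi.smul_apply, smul_eq_mul]
      have h0 := ht.1
      have h1 := ht.2
      nlinarith [sq_nonneg (a x i - b x i), mul_nonneg h0 (sub_nonneg.2 h1),
        mul_nonneg (mul_nonneg h0 (sub_nonneg.2 h1)) (sq_nonneg (a x i - b x i)),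
        mul_nonneg h0 (sq_nonneg (a x i)), mul_nonneg (sub_nonneg.2 h1) (sq_nonneg (b x i))]
    · intro t _ i
      rw [seg_int ha hb, ← hab i]
      ring
    · intro l i t _ t' _
      rw [seg_cos ha hb, seg_cos ha hb]
      have e : (1 - t) * cosCoeff l (fun x => a x i) + t * cosCoeff l (fun x => b x i)
          - ((1 - t') * cosCoeff l (fun x => a x i) + t' * cosCoeff l (fun x => b x i))
          = (cosCoeff l (fun x => b x i) - cosCoeff l (fun x => a x i)) * (t - t') := by ring
      rw [e, abs_mul]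
      exact mul_le_mul_of_nonneg_right (hLc l i) (abs_nonneg _)
    · intro l i t _ t' _
      rw [seg_sin ha hb, seg_sin ha hb]
      have e : (1 - t) * sinCoeff l (fun x => a x i) + t * sinCoeff l (fun x => b x i)
          - ((1 - t') * sinCoeff l (fun x => a x i) + t' * sinCoeff l (fun x => b x i))
          = (sinCoeff l (fun x => b x i) - sinCoeff l (fun x => a x i)) * (t - t') := by ring
      rw [e, abs_mul]
      exact mul_le_mul_of_nonneg_right (hLs l i) (abs_nonneg _)
  have hμ : ∀ l, ∀ η : ℝ, 0 < η → ∃ δ : ℝ, 0 < δ ∧ ∀ r, 0 ≤ r → r ≤ δ → L l * r ≤ η := by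
    intro l η hη
    have := hL0 l
    refine ⟨η / (L l + 1), by positivity, fun r h0 hr => ?_⟩
    calc L l * r ≤ L l * (η / (L l + 1)) := by gcongr
      _ = η * (L l / (L l + 1)) := by ring
      _ ≤ η * 1 := by
          gcongr
          rw [div_le_one (by positivity)]
          linarith
      _ = η := by ring
  obtain ⟨τ, δ, u, p, -, -, hsol, -, -, h2⟩ := main 1 _ one_pos _ _ hμ s ε hs hε
  obtain ⟨t₀, -, h3, -⟩ := h2 _ hcurve
  refine ⟨fun t => u (t₀ + t), p, global_of_sol (hsol.shift t₀), ?_, ?_⟩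
  · have := h3 0 ⟨le_rfl, zero_le_one⟩
    have e : seg a b 0 = a := by
      ext1 x; simp [seg]
    rw [e] at this
    exact this
  · have := h3 1 ⟨zero_le_one, le_rfl⟩
    have e : seg a b 1 = b := by
      ext1 x; simp [seg]
    rw [e] at this
    exact this

/-- Let `s > 1`.

(1) Let `T > 0`, `E`, `m`, `ε > 0`, and let `μ l`, `l ∈ ℤ³`, be moduli of continuity. There are a
smooth solution `u` of the Euler equations for all times, periodic in time with a period `τ`, and
`δ > 0` such that:

* for every classical solution `v` on `[0, T')`, `T' ≤ T`, with energy at most `E` and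
integral `m` (`T'` may be the time of a singularity) there is a time `t₀ ∈ [0, τ)` with
`‖u(t₀ + t) - v(t)‖ ≤ ε` in `H^{-s}` for all `t ∈ [0, T')`, and the same for all classical solutions
`z` with `∫ |z(0) - u(0)|² ≤ δ` in place of `u`, as long as `z` exists;

* the same for every curve `v` of divergence-free fields on `[0, T]` with energy at most `E`,
integral `m` and the moduli of continuity `μ l`, for all `t ∈ [0, T]`.

(2) If `O` is a set of smooth divergence-free fields, open in `H^{-s}`, which no global smooth solution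
leaves, and `a ∈ O`, then every smooth divergence-free field `b` with `∫ b = ∫ a` is a limit in
`H^{-s}` of elements of `O`.

(3) If `F` is continuous in `H^{-s}` and does not increase along the global smooth solutions, then
`F(a) = F(b)` for all smooth divergence-free fields `a`, `b` with `∫ a = ∫ b`. -/
theorem result (s : ℝ) (hs : 1 < s) :
    (∀ (T E : ℝ) (m : V) (μ : (Fin 3 → ℤ) → ℝ → ℝ), 0 < T →
      (∀ l, ∀ η : ℝ, 0 < η → ∃ δ : ℝ, 0 < δ ∧ ∀ r, 0 ≤ r → r ≤ δ → μ l r ≤ η) →
      ∀ ε : ℝ, 0 < ε →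
      ∃ (τ δ : ℝ) (u : ℝ → V → V) (p : V → ℝ), 0 < τ ∧ 0 < δ ∧ IsGlobalSolution u p ∧
        (∀ t, u (t + τ) = u t) ∧
        (∀ (T' : ℝ) (v : ℝ → V → V), 0 < T' → T' ≤ T → IsSolution T' E m v →
          ∃ t₀ ∈ Ico 0 τ, Follows s ε δ u t₀ (Ico 0 T') v) ∧
        (∀ v : ℝ → V → V, IsCurve T E m μ v →
          ∃ t₀ ∈ Ico 0 τ, Follows s ε δ u t₀ (Icc 0 T) v)) ∧
    (∀ O : Set (V → V), HOpen s O → Trapping O → ∀ a ∈ O, IsField a → ∀ b, IsField b →
      (∀ i, ∫ x in cube, a x i = ∫ x in cube, b x i) →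
      ∀ ε : ℝ, 0 < ε → ∃ c ∈ O, IsField c ∧ HNegClose s ε c b) ∧
    (∀ F : (V → V) → ℝ, HContinuous s F → Nonincreasing F → ∀ a b, IsField a → IsField b →
      (∀ i, ∫ x in cube, a x i = ∫ x in cube, b x i) → F a = F b) := by
  refine ⟨?_, ?_, ?_⟩
  · intro T E m μ hT hμ ε hε
    obtain ⟨τ, δ, u, p, h1, h2, h3, h4, h5, h6⟩ := main T E hT m μ hμ s ε hs hε
    exact ⟨τ, δ, u, p, h1, h2, global_of_sol h3, h4, h5, h6⟩
  · intro O hO hT a haO ha b hb hab ε hε
    obtain ⟨ε₁, hε₁, hO₁⟩ := hO a haO ha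
    obtain ⟨u, p, hu, h0, h1⟩ := join hs ha hb hab (lt_min hε₁ hε)
    have hu0 : u 0 ∈ O := hO₁ _ (isField_of_sol hu 0)
      (HNegClose.mono h0 (lt_min hε₁ hε).le (min_le_left _ _))
    exact ⟨u 1, hT u p hu hu0 1 zero_le_one, isField_of_sol hu 1,
      HNegClose.mono h1 (lt_min hε₁ hε).le (min_le_right _ _)⟩
  · intro F hF hmon
    have key : ∀ a b, IsField a → IsField b →
        (∀ i, ∫ x in cube, a x i = ∫ x in cube, b x i) → F b ≤ F a := by
      intro a b ha hb hab
      refine le_of_forall_pos_le_add fun η hη => ?_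
      obtain ⟨ε₁, hε₁, h₁⟩ := hF a ha (η / 2) (half_pos hη)
      obtain ⟨ε₂, hε₂, h₂⟩ := hF b hb (η / 2) (half_pos hη)
      obtain ⟨u, p, hu, h0, h1⟩ := join hs ha hb hab (lt_min hε₁ hε₂)
      have k1 := abs_le.1 (h₁ _ (isField_of_sol hu 0)
        (HNegClose.mono h0 (lt_min hε₁ hε₂).le (min_le_left _ _)))
      have k2 := abs_le.1 (h₂ _ (isField_of_sol hu 1)
        (HNegClose.mono h1 (lt_min hε₁ hε₂).le (min_le_right _ _)))
      have k3 := hmon u p hu 1 zero_le_one
      linarith [k1.1, k1.2, k2.1, k2.2]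
    intro a b ha hb hab
    exact le_antisymm (key b a hb ha fun i => (hab i).symm) (key a b ha hb hab)

end Pool.Agent.Results.MP_b0497c_an.UniversalSolution
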